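import Mathlib

/-!
# Star functions: `1 / (v* (r + b R)⁻¹ v) = r (1 + ∑ γ_j) + al b - ∑ γ_j r² / (r + a_j b)`
-/

set_option autoImplicit false
set_option linter.unusedSectionVars false

open scoped BigOperators ComplexOrder Kronecker MatrixOrder
open Matrix

namespace Pool.Agent.LDK

/-- star function: `r (1 + ∑ γ_j) + al b - ∑ γ_j r² / (r + a_j b)` -/
noncomputable def starF {J : ℕ} (al : ℝ) (a γ : Fin J → ℝ) (r b : ℝ) : ℝ :=
  r * (1 + ∑ j, γ j) + al * b - ∑ j, γ j * (r ^ 2 / (r + a j * b))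

theorem starF_lower {J : ℕ} {al : ℝ} {a γ : Fin J → ℝ} (ha : ∀ j, 0 < a j) (hγ : ∀ j, 0 ≤ γ j)
    {r b : ℝ} (hr : 0 < r) (hb : 0 ≤ b) : r + al * b ≤ starF al a γ r b := by
  unfold starF
  have h : ∑ j, γ j * (r ^ 2 / (r + a j * b)) ≤ ∑ j, γ j * r := by
    refine Finset.sum_le_sum fun j _ => mul_le_mul_of_nonneg_left ?_ (hγ j)
    have h1 : 0 ≤ a j * b := mul_nonneg (ha j).le hb
    rw [div_le_iff₀ (by linarith), pow_two]
    nlinarith
  rw [← Finset.sum_mul] at h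
  nlinarith

theorem starF_pos {J : ℕ} {al : ℝ} {a γ : Fin J → ℝ} (ha : ∀ j, 0 < a j) (hγ : ∀ j, 0 ≤ γ j)
    (hal : 0 ≤ al) {r b : ℝ} (hr : 0 < r) (hb : 0 ≤ b) : 0 < starF al a γ r b :=
  lt_of_lt_of_le (by have := mul_nonneg hal hb; linarith) (starF_lower ha hγ hr hb)

/-- the star function in the form of a Schur complement -/
theorem starF_schur {J : ℕ} (c : ℝ) {a : Fin J → ℝ} (m : Fin J → ℝ) (ha : ∀ j, 0 < a j)
    {r b : ℝ} (hr : 0 < r) (hb : 0 ≤ b) :
    starF (c - ∑ j, m j / a j) a (fun j => m j / a j ^ 2) r b =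
      r + b * c - ∑ j, b ^ 2 * m j / (r + a j * b) := by
  unfold starF
  have h : ∀ j, b ^ 2 * m j / (r + a j * b) =
      b * (m j / a j) - r * (m j / a j ^ 2) + m j / a j ^ 2 * (r ^ 2 / (r + a j * b)) := by
    intro j
    have h1 : r + a j * b ≠ 0 := by
      have := mul_nonneg (ha j).le hb
      positivity
    have h2 := (ha j).ne'
    have hx : (r + a j * b) * (r + a j * b)⁻¹ = 1 := mul_inv_cancel₀ h1
    obtain ⟨q, hq⟩ : ∃ q, m j = q * a j ^ 2 := ⟨m j / a j ^ 2, by field_simp⟩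
    have e1 : m j / a j = q * a j := by rw [hq]; field_simp
    have e2 : m j / a j ^ 2 = q := by rw [hq]; field_simp
    rw [e1, e2, hq, div_eq_mul_inv, div_eq_mul_inv]
    linear_combination (q * (b * a j - r)) * hx
  simp only [h, Finset.sum_add_distrib, Finset.sum_sub_distrib, ← Finset.mul_sum]
  ring

/-- arrow matrix -/
noncomputable def arrow {J : ℕ} (c : ℝ) (d : Fin J → ℝ) (ρ : Fin J → ℂ) :
    Matrix (Unit ⊕ Fin J) (Unit ⊕ Fin J) ℂ :=
  fromBlocks (of fun _ _ => (c : ℂ)) (of fun _ j => star (ρ j)) (of fun j _ => ρ j)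
    (diagonal fun j => (d j : ℂ))

theorem arrow_ll {J : ℕ} (c : ℝ) (d : Fin J → ℝ) (ρ : Fin J → ℂ) (i j : Unit) :
    arrow c d ρ (Sum.inl i) (Sum.inl j) = (c : ℂ) := by
  simp [arrow]

theorem arrow_lr {J : ℕ} (c : ℝ) (d : Fin J → ℝ) (ρ : Fin J → ℂ) (i : Unit) (j : Fin J) :
    arrow c d ρ (Sum.inl i) (Sum.inr j) = star (ρ j) := by
  simp [arrow]

theorem arrow_rl {J : ℕ} (c : ℝ) (d : Fin J → ℝ) (ρ : Fin J → ℂ) (i : Unit) (j : Fin J) :
    arrow c d ρ (Sum.inr j) (Sum.inl i) = ρ j := by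
  simp [arrow]

theorem arrow_rr {J : ℕ} (c : ℝ) (d : Fin J → ℝ) (ρ : Fin J → ℂ) (i j : Fin J) :
    arrow c d ρ (Sum.inr i) (Sum.inr j) = if i = j then (d i : ℂ) else 0 := by
  simp [arrow, diagonal_apply]

section

variable {κ : Type*} [Fintype κ] [DecidableEq κ]

/-- an isometric basis with prescribed first vector -/
theorem exists_basis (v : κ → ℂ) (hv : star v ⬝ᵥ v = 1) :
    ∃ (J : ℕ) (V : Matrix κ (Unit ⊕ Fin J) ℂ), Vᴴ * V = 1 ∧ V * Vᴴ = 1 ∧
      ∀ i, V i (Sum.inl ()) = v i := by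
  have hne : Nonempty κ := by
    by_contra h
    rw [not_nonempty_iff] at h
    simp at hv
  have hc : 0 < Fintype.card κ := Fintype.card_pos
  set J := Fintype.card κ - 1 with hJ
  have hcard : Fintype.card (Unit ⊕ Fin J) = Fintype.card κ := by
    simp [hJ]
    omega
  have hfin : Module.finrank ℂ (EuclideanSpace ℂ κ) = Fintype.card (Unit ⊕ Fin J) := by
    rw [finrank_euclideanSpace, hcard]
  let x : EuclideanSpace ℂ κ := WithLp.toLp 2 v
  have hx : Orthonormal ℂ (({Sum.inl ()} : Set (Unit ⊕ Fin J)).domRestrict fun _ => x) := by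
    constructor
    · intro i
      show ‖x‖ = 1
      have h1 : inner ℂ x x = (1 : ℂ) := by
        rw [EuclideanSpace.inner_eq_star_dotProduct]
        show v ⬝ᵥ star v = 1
        rw [dotProduct_comm]
        exact hv
      have h2 : ((‖x‖ : ℂ)) ^ 2 = 1 := by
        have := inner_self_eq_norm_sq_to_K (𝕜 := ℂ) x
        rw [h1] at this
        exact this.symm
      have h3 : ‖x‖ ^ 2 = 1 := by exact_mod_cast h2
      have h4 := norm_nonneg x
      nlinarith
    · intro i j hij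
      exact absurd (Subsingleton.elim i j) hij
  obtain ⟨b, hb⟩ := hx.exists_orthonormalBasis_extension_of_card_eq hfin
  refine ⟨J, Matrix.of fun i j => b j i, ?_, ?_, ?_⟩
  · ext i j
    rw [mul_apply, one_apply]
    simp only [conjTranspose_apply, of_apply]
    have := (orthonormal_iff_ite.1 b.orthonormal) i j
    rw [EuclideanSpace.inner_eq_star_dotProduct] at this
    rw [← this]
    unfold dotProduct
    refine Finset.sum_congr rfl fun k _ => ?_
    simp [mul_comm]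
  · rw [Matrix.mul_eq_one_comm_of_card_eq κ (Unit ⊕ Fin J) ℂ hcard.symm]
    ext i j
    rw [mul_apply, one_apply]
    simp only [conjTranspose_apply, of_apply]
    have := (orthonormal_iff_ite.1 b.orthonormal) i j
    rw [EuclideanSpace.inner_eq_star_dotProduct] at this
    rw [← this]
    unfold dotProduct
    refine Finset.sum_congr rfl fun k _ => ?_
    simp [mul_comm]
  · intro i
    simp only [of_apply]
    rw [hb _ rfl]

theorem mulVec_inv_eq {M : Matrix κ κ ℂ} (hM : IsUnit M.det) {x y : κ → ℂ} (h : M *ᵥ x = y) :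
    M⁻¹ *ᵥ y = x := by
  rw [← h, mulVec_mulVec, nonsing_inv_mul _ hM, one_mulVec]

theorem posDef_rb {R : Matrix κ κ ℂ} (hR : R.PosDef) {r b : ℝ} (hr : 0 < r) (hb : 0 ≤ b) :
    (r • (1 : Matrix κ κ ℂ) + b • R).PosDef := by
  have h1 : (r • (1 : Matrix κ κ ℂ)).PosDef := by
    have : (r • (1 : Matrix κ κ ℂ)) = (r : ℂ) • (1 : Matrix κ κ ℂ) := by
      ext i j; simp
    rw [this]
    exact Matrix.PosDef.one.smul (by exact_mod_cast hr)
  have h2 : (b • R).PosSemidef := by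
    have : (b • R) = (b : ℂ) • R := by
      ext i j; simp
    rw [this]
    exact hR.posSemidef.smul (by exact_mod_cast hb)
  exact h1.add_posSemidef h2

/-- normal form of `(R, v)`: an isometry `V` onto an arrow matrix -/
theorem exists_arrow (R : Matrix κ κ ℂ) (hR : R.PosDef) (v : κ → ℂ) (hv : star v ⬝ᵥ v = 1) :
    ∃ (J : ℕ) (V : Matrix κ (Unit ⊕ Fin J) ℂ) (a : Fin J → ℝ) (ρ : Fin J → ℂ) (c : ℝ),
      Vᴴ * V = 1 ∧ V * Vᴴ = 1 ∧ (∀ i, V i (Sum.inl ()) = v i) ∧ (∀ j, 0 < a j) ∧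
      Vᴴ * R * V = arrow c a ρ := by
  obtain ⟨J, V, h1, h2, h3⟩ := exists_basis v hv
  have hinj : Function.Injective V.mulVec := by
    intro x y hxy
    have : Vᴴ *ᵥ (V *ᵥ x) = Vᴴ *ᵥ (V *ᵥ y) := congrArg _ hxy
    simpa only [mulVec_mulVec, h1, one_mulVec] using this
  have hR' : (Vᴴ * R * V).PosDef := hR.conjTranspose_mul_mul_same hinj
  have hR1 : ((Vᴴ * R * V).submatrix (Sum.inr : Fin J → Unit ⊕ Fin J) Sum.inr).PosDef :=
    hR'.submatrix Sum.inr_injective
  have hs := hR1.1.spectral_theorem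
  rw [Unitary.conjStarAlgAut_apply] at hs
  set U : Matrix (Fin J) (Fin J) ℂ := (hR1.1.eigenvectorUnitary : Matrix (Fin J) (Fin J) ℂ) with hU
  have hU1 : Uᴴ * U = 1 := by
    have := Unitary.coe_star_mul_self hR1.1.eigenvectorUnitary
    rwa [star_eq_conjTranspose] at this
  have hU2 : U * Uᴴ = 1 := by
    have := Unitary.coe_mul_star_self hR1.1.eigenvectorUnitary
    exact this
  have hd : Uᴴ * ((Vᴴ * R * V).submatrix (Sum.inr : Fin J → Unit ⊕ Fin J) Sum.inr) * U =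
      diagonal fun j => ((hR1.1.eigenvalues j : ℝ) : ℂ) := by
    conv_lhs => rw [hs]
    have : Uᴴ * (U * diagonal (RCLike.ofReal ∘ hR1.1.eigenvalues) * star U) * U =
        (Uᴴ * U) * diagonal (RCLike.ofReal ∘ hR1.1.eigenvalues) * (Uᴴ * U) := by
      rw [star_eq_conjTranspose]
      simp only [Matrix.mul_assoc]
    rw [this, hU1, Matrix.one_mul, Matrix.mul_one]
    rfl
  set W : Matrix (Unit ⊕ Fin J) (Unit ⊕ Fin J) ℂ := fromBlocks 1 0 0 U with hW
  have hWH : Wᴴ = fromBlocks 1 0 0 Uᴴ := by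
    rw [hW, fromBlocks_conjTranspose]
    simp
  have hW1 : Wᴴ * W = 1 := by
    rw [hWH, hW, fromBlocks_multiply]
    simp [hU1]
  have hW2 : W * Wᴴ = 1 := by
    rw [hWH, hW, fromBlocks_multiply]
    simp [hU2]
  have hmul : (V * W)ᴴ * R * (V * W) = Wᴴ * (Vᴴ * R * V) * W := by
    rw [conjTranspose_mul]
    simp only [Matrix.mul_assoc]
  have hherm : (Wᴴ * (Vᴴ * R * V) * W).IsHermitian := by
    rw [← hmul]
    exact isHermitian_conjTranspose_mul_mul _ hR.1
  refine ⟨J, V * W, hR1.1.eigenvalues,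
    fun j => (Wᴴ * (Vᴴ * R * V) * W) (Sum.inr j) (Sum.inl ()),
    ((Wᴴ * (Vᴴ * R * V) * W) (Sum.inl ()) (Sum.inl ())).re, ?_, ?_, ?_,
    fun j => hR1.eigenvalues_pos j, ?_⟩
  · rw [conjTranspose_mul]
    calc Wᴴ * Vᴴ * (V * W) = Wᴴ * (Vᴴ * V) * W := by simp only [Matrix.mul_assoc]
      _ = 1 := by rw [h1, Matrix.mul_one, hW1]
  · rw [conjTranspose_mul]
    calc V * W * (Wᴴ * Vᴴ) = V * (W * Wᴴ) * Vᴴ := by simp only [Matrix.mul_assoc]
      _ = 1 := by rw [hW2, Matrix.mul_one, h2]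
  · intro i
    rw [mul_apply, Fintype.sum_sum_type]
    simp [hW, h3]
  · rw [hmul]
    have hb : Wᴴ * (Vᴴ * R * V) * W = fromBlocks (Wᴴ * (Vᴴ * R * V) * W).toBlocks₁₁
        (Wᴴ * (Vᴴ * R * V) * W).toBlocks₁₂ (Wᴴ * (Vᴴ * R * V) * W).toBlocks₂₁
        (Wᴴ * (Vᴴ * R * V) * W).toBlocks₂₂ := (fromBlocks_toBlocks _).symm
    rw [hb]
    unfold arrow
    congr 1
    · ext i j
      have h := hherm.apply (Sum.inl ()) (Sum.inl ())
      show (Wᴴ * (Vᴴ * R * V) * W) (Sum.inl ()) (Sum.inl ()) = _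
      have h5 : ((Wᴴ * (Vᴴ * R * V) * W) (Sum.inl ()) (Sum.inl ())).im = 0 := by
        have := congrArg Complex.im h
        simp only [Complex.star_def, Complex.conj_im] at this
        linarith
      exact Complex.ext (by simp [toBlocks₁₁]) (by simp [h5])
    · ext i j
      exact (hherm.apply (Sum.inl ()) (Sum.inr j)).symm
    · have h6 : (Wᴴ * (Vᴴ * R * V) * W).toBlocks₂₂ = Uᴴ * ((Vᴴ * R * V).submatrix
          (Sum.inr : Fin J → Unit ⊕ Fin J) Sum.inr) * U := by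
        have h7 : Vᴴ * R * V = fromBlocks (Vᴴ * R * V).toBlocks₁₁ (Vᴴ * R * V).toBlocks₁₂
          (Vᴴ * R * V).toBlocks₂₁ (Vᴴ * R * V).toBlocks₂₂ := (fromBlocks_toBlocks _).symm
        conv_lhs => rw [hWH, hW, h7, fromBlocks_multiply, fromBlocks_multiply,
          toBlocks_fromBlocks₂₂]
        simp only [Matrix.zero_mul, Matrix.mul_zero, zero_add]
        rfl
      rw [h6, hd]

/-- the vector which inverts an arrow matrix on `e₀` -/
noncomputable def zvec {J : ℕ} (y : ℝ) (d : Fin J → ℝ) (ρ : Fin J → ℂ) : Unit ⊕ Fin J → ℂ :=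
  Sum.elim (fun _ => (y : ℂ)) (fun j => -(ρ j) * (y : ℂ) / (d j : ℂ))

theorem arrow_mulVec {J : ℕ} (c y : ℝ) (d : Fin J → ℝ) (hd : ∀ j, d j ≠ 0) (ρ : Fin J → ℂ) :
    arrow c d ρ *ᵥ zvec y d ρ =
      Sum.elim (fun _ => ((y * (c - ∑ j, Complex.normSq (ρ j) / d j) : ℝ) : ℂ)) (fun _ => 0) := by
  ext i
  rcases i with i | j
  · rw [mulVec, dotProduct, Fintype.sum_sum_type]
    simp only [arrow_ll, arrow_lr, zvec, Sum.elim_inl, Sum.elim_inr,
      Finset.univ_unique, Finset.sum_const, Finset.card_singleton, one_smul]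
    have : ∀ j, star (ρ j) * (-(ρ j) * (y : ℂ) / (d j : ℂ)) =
        ((-(y * (Complex.normSq (ρ j) / d j)) : ℝ) : ℂ) := by
      intro j
      have h1 : star (ρ j) * ρ j = ((Complex.normSq (ρ j) : ℝ) : ℂ) := by
        rw [Complex.star_def, ← Complex.normSq_eq_conj_mul_self]
      push_cast
      rw [← h1]
      ring
    simp only [this]
    rw [← Complex.ofReal_sum, Finset.sum_neg_distrib, ← Finset.mul_sum]
    push_cast
    ring
  · rw [mulVec, dotProduct, Fintype.sum_sum_type]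
    simp only [arrow_rl, arrow_rr, zvec, Sum.elim_inl, Sum.elim_inr,
      Finset.univ_unique, Finset.sum_const, Finset.card_singleton, one_smul]
    have hdj : (d j : ℂ) ≠ 0 := by exact_mod_cast hd j
    rw [Finset.sum_eq_single j]
    · rw [if_pos rfl]
      field_simp
      ring
    · intro k _ hk
      rw [if_neg (Ne.symm hk), zero_mul]
    · intro h; exact absurd (Finset.mem_univ _) h

theorem arrow_form {J : ℕ} (c : ℝ) (d : Fin J → ℝ) (hd : ∀ j, d j ≠ 0) (ρ : Fin J → ℂ) :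
    star (zvec 1 d ρ) ⬝ᵥ (arrow c d ρ *ᵥ zvec 1 d ρ) =
      ((c - ∑ j, Complex.normSq (ρ j) / d j : ℝ) : ℂ) := by
  rw [arrow_mulVec c 1 d hd ρ, dotProduct, Fintype.sum_sum_type]
  simp [zvec]

theorem arrow_det {J : ℕ} (c : ℝ) (d : Fin J → ℝ) (hd : ∀ j, d j ≠ 0) (ρ : Fin J → ℂ) :
    (arrow c d ρ).det =
      (((∏ j, d j) * (c - ∑ j, Complex.normSq (ρ j) / d j) : ℝ) : ℂ) := by
  have hdc : ∀ j, (d j : ℂ) ≠ 0 := fun j => by exact_mod_cast hd j
  let _ : Invertible (diagonal fun j => (d j : ℂ)) :=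
    ⟨diagonal fun j => ((d j : ℂ))⁻¹, by
      rw [diagonal_mul_diagonal, ← diagonal_one]; congr 1; ext j; exact inv_mul_cancel₀ (hdc j), by
      rw [diagonal_mul_diagonal, ← diagonal_one]; congr 1; ext j; exact mul_inv_cancel₀ (hdc j)⟩
  have hinv : ⅟(diagonal fun j => (d j : ℂ)) = diagonal fun j => ((d j : ℂ))⁻¹ := rfl
  unfold arrow
  rw [det_fromBlocks₂₂, hinv, det_diagonal, det_unique]
  push_cast
  congr 1
  rw [Matrix.sub_apply, mul_apply]
  congr 1
  refine Finset.sum_congr rfl fun j _ => ?_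
  rw [mul_diagonal, Complex.normSq_eq_conj_mul_self]
  simp only [Complex.star_def, of_apply]
  ring

/-- **Star data of a positive definite matrix and a unit vector.** -/
theorem star_data (R : Matrix κ κ ℂ) (hR : R.PosDef) (v : κ → ℂ) (hv : star v ⬝ᵥ v = 1) :
    ∃ (J : ℕ) (a γ : Fin J → ℝ) (al : ℝ), (∀ j, 0 < a j) ∧ (∀ j, 0 ≤ γ j) ∧ 0 < al ∧
      (∀ l e : ℝ, (l • R + e • vecMulVec v (star v)).PosSemidef → 0 ≤ l * al + e) ∧
      ∀ r b : ℝ, 0 < r → 0 ≤ b →
        star v ⬝ᵥ ((r • (1 : Matrix κ κ ℂ) + b • R)⁻¹ *ᵥ v) =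
          (((starF al a γ r b)⁻¹ : ℝ) : ℂ) ∧
        (r • (1 : Matrix κ κ ℂ) + b • R).det =
          (((∏ j, (r + a j * b)) * starF al a γ r b : ℝ) : ℂ) := by
  obtain ⟨J, V, a, ρ, c, h1, h2, h3, ha, hA⟩ := exists_arrow R hR v hv
  set m : Fin J → ℝ := fun j => Complex.normSq (ρ j) with hm
  have hm0 : ∀ j, 0 ≤ m j := fun j => Complex.normSq_nonneg _
  have hvz : v = V *ᵥ (Sum.elim (fun _ => (1 : ℂ)) (fun _ => 0)) := by
    ext i
    rw [mulVec, dotProduct, Fintype.sum_sum_type]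
    simp [h3]
  have hform : ∀ (M : Matrix κ κ ℂ) (x : Unit ⊕ Fin J → ℂ),
      star (V *ᵥ x) ⬝ᵥ (M *ᵥ (V *ᵥ x)) = star x ⬝ᵥ ((Vᴴ * M * V) *ᵥ x) := by
    intro M x
    rw [star_mulVec, ← dotProduct_mulVec, mulVec_mulVec, mulVec_mulVec]
  have hform' : ∀ x : Unit ⊕ Fin J → ℂ, star v ⬝ᵥ (V *ᵥ x) = x (Sum.inl ()) := by
    intro x
    conv_lhs => rw [hvz]
    rw [star_mulVec, ← dotProduct_mulVec, mulVec_mulVec, h1, one_mulVec, dotProduct,
      Fintype.sum_sum_type]
    simp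
  set z : Unit ⊕ Fin J → ℂ := zvec 1 a ρ with hz
  have hz1 : z (Sum.inl ()) = 1 := by simp [hz, zvec]
  have hzne : V *ᵥ z ≠ 0 := by
    intro h0
    have := hform' z
    rw [h0, dotProduct_zero, hz1] at this
    exact zero_ne_one this
  have hquad : star (V *ᵥ z) ⬝ᵥ (R *ᵥ (V *ᵥ z)) = ((c - ∑ j, m j / a j : ℝ) : ℂ) := by
    rw [hform, hA, hz, arrow_form c a (fun j => (ha j).ne') ρ]
  refine ⟨J, a, fun j => m j / a j ^ 2, c - ∑ j, m j / a j, ha,
    fun j => div_nonneg (hm0 j) (by positivity), ?_, ?_, ?_⟩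
  · have := hR.re_dotProduct_pos hzne
    rw [hquad] at this
    simpa using this
  · intro l e hpsd
    have h5 := hpsd.re_dotProduct_nonneg (V *ᵥ z)
    have h6 : star (V *ᵥ z) ⬝ᵥ ((l • R + e • vecMulVec v (star v)) *ᵥ (V *ᵥ z)) =
        ((l * (c - ∑ j, m j / a j) + e : ℝ) : ℂ) := by
      rw [add_mulVec, dotProduct_add, smul_mulVec, dotProduct_smul, hquad, smul_mulVec,
        dotProduct_smul, vecMulVec_mulVec, hform' z, hz1]
      have h7 : star (V *ᵥ z) ⬝ᵥ v = 1 := by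
        have h8 := congrArg star (hform' z)
        rw [hz1, star_one, star_dotProduct, star_star] at h8
        exact h8
      simp [h7]
    rw [h6] at h5
    simpa using h5
  · intro r b hr hb
    have hd : ∀ j, r + a j * b ≠ 0 := fun j => by
      have := mul_nonneg (ha j).le hb
      positivity
    have hT : Vᴴ * (r • (1 : Matrix κ κ ℂ) + b • R) * V =
        arrow (r + b * c) (fun j => r + a j * b) (fun j => (b : ℂ) * ρ j) := by
      have h5 : Vᴴ * (r • (1 : Matrix κ κ ℂ) + b • R) * V =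
          r • (1 : Matrix (Unit ⊕ Fin J) (Unit ⊕ Fin J) ℂ) + b • (Vᴴ * R * V) := by
        rw [Matrix.mul_add, Matrix.add_mul, Matrix.mul_smul, Matrix.mul_one, Matrix.smul_mul, h1,
          Matrix.mul_smul, Matrix.smul_mul]
      rw [h5, hA]
      ext i j
      rw [Matrix.add_apply, Matrix.smul_apply, Matrix.smul_apply]
      rcases i with i | i <;> rcases j with j | j
      · rw [arrow_ll, arrow_ll]
        simp
      · rw [arrow_lr, arrow_lr]
        simp
      · rw [arrow_rl, arrow_rl]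
        simp
      · rw [arrow_rr, arrow_rr]
        by_cases hij : i = j
        · subst hij
          simp [mul_comm]
        · simp [hij]
    have hpsi : starF (c - ∑ j, m j / a j) a (fun j => m j / a j ^ 2) r b =
        (r + b * c) - ∑ j, Complex.normSq ((b : ℂ) * ρ j) / (r + a j * b) := by
      rw [starF_schur c m ha hr hb]
      congr 1
      refine Finset.sum_congr rfl fun j _ => ?_
      rw [Complex.normSq_mul, Complex.normSq_ofReal, pow_two]
    have hpos : 0 < starF (c - ∑ j, m j / a j) a (fun j => m j / a j ^ 2) r b := by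
      apply starF_pos ha (fun j => div_nonneg (hm0 j) (by positivity)) _ hr hb
      have := hR.re_dotProduct_pos hzne
      rw [hquad] at this
      have h9 : 0 < c - ∑ j, m j / a j := by simpa using this
      exact h9.le
    set ψ := starF (c - ∑ j, m j / a j) a (fun j => m j / a j ^ 2) r b with hψ
    have hM : (r • (1 : Matrix κ κ ℂ) + b • R) =
        V * (Vᴴ * (r • (1 : Matrix κ κ ℂ) + b • R) * V) * Vᴴ := by
      calc (r • (1 : Matrix κ κ ℂ) + b • R)
          = (V * Vᴴ) * (r • (1 : Matrix κ κ ℂ) + b • R) * (V * Vᴴ) := by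
            rw [h2, Matrix.one_mul, Matrix.mul_one]
        _ = _ := by simp only [Matrix.mul_assoc]
    constructor
    · have hsolve : (r • (1 : Matrix κ κ ℂ) + b • R) *ᵥ (V *ᵥ zvec ψ⁻¹ (fun j => r + a j * b)
          (fun j => (b : ℂ) * ρ j)) = v := by
        rw [hM, hT, mulVec_mulVec, Matrix.mul_assoc, h1, Matrix.mul_one, ← mulVec_mulVec,
          arrow_mulVec _ _ _ hd, ← hpsi, inv_mul_cancel₀ hpos.ne', Complex.ofReal_one]
        exact hvz.symm
      rw [mulVec_inv_eq ((isUnit_iff_ne_zero).2 (posDef_rb hR hr hb).det_pos.ne') hsolve,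
        hform']
      simp [zvec]
    · conv_lhs => rw [hM, hT]
      rw [det_conj_of_mul_eq_one h2 h1, arrow_det (r + b * c) (fun j => r + a j * b) hd
        (fun j => (b : ℂ) * ρ j), hpsi]

end

end Pool.Agent.LDK
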