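import Pool.Agent.Lib_helper66.LDK.MixD
import Pool.Agent.Lib_helper4.LDK.Defs

/-!
# LDK, block MIX: exponential domination implies Q1 for the pair against every pair
-/

set_option autoImplicit false
set_option linter.unusedSectionVars false

open scoped BigOperators Topology ENNReal ComplexOrder Kronecker
open MeasureTheory Set Filter Matrix

namespace Pool.Agent.LDK

open Pool.Agent.Lib_helper59.RCT (ExpDom ExpMeas)
open Pool.Agent.RC Mix

variable {ι κ : Type} [Fintype ι] [DecidableEq ι] [Fintype κ] [DecidableEq κ]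

theorem ineq02 {α : ℝ} (h0 : 0 < α) (h2 : α < 2) (h1 : α ≠ 1) {A₂ D₂ : Matrix κ κ ℂ}
    (h : IsPsdPair A₂ D₂) (hη : ExpDom A₂ D₂) (A D : Matrix ι ι ℂ) (hA : IsPsdPair A D) :
    G α A D * G α A₂ D₂ ≤ (2 ^ (α - 1) - 1) * G α (A ⊗ₖ A₂) (D ⊗ₖ D₂) := by
  obtain ⟨μ, hμ⟩ := hη
  have := hμ.sfin
  have hk := (hA.kron h)
  have p := toPP hA
  have p2 := toPP h
  have pk := toPP hk
  rw [G_eq_sd α hA.pos.1 hA.herm, G_eq_sd α h.pos.1 h.herm, G_eq_sd α hk.pos.1 hk.herm]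
  have meas1 := measurable_ladE p.psd.1 p.herm 1
  have measo := measurable_ladE o1H o1H 1
  rcases lt_or_gt_of_ne h1 with hlt | hgt
  · -- `0 < α < 1`
    have hf := MF.neg (mf_ladE 0 h0 (by simpa using h0) (by simpa using hlt))
    have hg := MF.neg (mf_ladL 0 h0 (by simpa using h0) (by simpa using hlt))
    have hE := KE_pos 0 (α := α) (by simpa using h0) (by simpa using hlt)
    have hL := KL_pos 0 (α := α) (by simpa using h0) (by simpa using hlt)
    have eE : ∀ {ν : Type} [Fintype ν] [DecidableEq ν] (B C : Matrix ν ν ℂ), B.IsHermitian →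
        C.IsHermitian → Lib_helper59.RCT.sd (fun x => - lad fE cE 0 x) B C =
          Lib_helper59.RCT.sd (lad fE cE 1) B C := by
      intro ν _ _ B C hB hC
      rw [sdH_neg hB hC, sd_ladE_one hB hC, sd_ladE_zero hB hC, neg_neg]
    have eL : ∀ {ν : Type} [Fintype ν] [DecidableEq ν] (B C : Matrix ν ν ℂ), B.IsHermitian →
        C.IsHermitian → Lib_helper59.RCT.sd (fun x => - lad fL cL 0 x) B C =
          Lib_helper59.RCT.sd (lad fL cL 1) B C := by
      intro ν _ _ B C hB hC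
      rw [sdH_neg hB hC, sd_ladL_one hB hC, sd_nl hB hC]
    have cE' : ConvexOn ℝ (Ici 0) (fun x => - lad fE cE 0 x) := by
      have hc := ConvexOn.sub (ladE_convex 0) (concaveOn_id (convex_Ici 0))
      refine hc.congr ?_
      intro x _
      simp only [lad, Pi.sub_apply, id, cE]
      norm_num
    have cL' : ConvexOn ℝ (Ici 0) (fun x => - lad fL cL 0 x) := by
      have hc := ConvexOn.sub (ladL_convex 0) (concaveOn_id (convex_Ici 0))
      refine hc.congr ?_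
      intro x _
      simp only [lad, Pi.sub_apply, id, cL]
      norm_num
    refine range_le hf cE' hg cL' (Or.inl ⟨h0, h2.le, h1⟩) (by nlinarith) (by nlinarith)
      p p2 hμ.adm ?_ ?_ ?_ ?_
    · have e : (fun q : ℝ × ℝ => Lib_helper59.RCT.sd (fun x => - lad fE cE 0 x) (q.1 • A)
          (q.2 • D)) = fun q : ℝ × ℝ => Lib_helper59.RCT.sd (lad fE cE 1) (q.1 • A) (q.2 • D) := by
        funext q
        exact eE _ _ (smulH p.psd.1 _) (smulH p.herm _)
      rw [e]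
      exact meas1
    · have e : (fun q : ℝ × ℝ => Lib_helper59.RCT.sd (fun x => - lad fE cE 0 x) (q.1 • o1)
          (q.2 • o1)) = fun q : ℝ × ℝ =>
            Lib_helper59.RCT.sd (lad fE cE 1) (q.1 • o1) (q.2 • o1) := by
        funext q
        exact eE _ _ (smulH o1H _) (smulH o1H _)
      rw [e]
      exact measo
    · intro u hu
      rw [eL _ _ (smulH pk.psd.1 _) (smulH pk.herm _)]
      refine le_trans (le_of_eq ?_) (level1 p p2 hμ hu)
      refine lintegral_congr fun q => ?_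
      rw [eE _ _ (smulH p.psd.1 _) (smulH p.herm _)]
    · intro u hu
      rw [eL _ _ (smulH p2.psd.1 _) (smulH p2.herm _), ← seq_all p2 hμ 0 u hu]
      refine lintegral_congr fun q => ?_
      rw [eE _ _ (smulH o1H _) (smulH o1H _)]
  · -- `1 < α < 2`
    have hf := mf_ladE 1 h0 (by simpa using hgt) (by norm_num; linarith)
    have hg := mf_ladL 1 h0 (by simpa using hgt) (by norm_num; linarith)
    have hE := KE_pos 1 (α := α) (by simpa using hgt) (by norm_num; linarith)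
    have hL := KL_pos 1 (α := α) (by simpa using hgt) (by norm_num; linarith)
    exact range_le hf (ladE_convex 0) hg (ladL_convex 0) (Or.inl ⟨h0, h2.le, h1⟩)
      (mul_pos hE (by linarith)) (mul_pos hL (by linarith)) p p2 hμ.adm meas1 measo
      (fun u hu => level1 p p2 hμ hu) (seq_all p2 hμ 0)

theorem ineq23 {α : ℝ} (h2 : 2 < α) (h3 : α < 3) {A₂ D₂ : Matrix κ κ ℂ}
    (h : IsPsdPair A₂ D₂) (hη : ExpDom A₂ D₂) (A D : Matrix ι ι ℂ) (hA : IsPsdPair A D) :
    (2 ^ (α - 1) - 1) * G α (A ⊗ₖ A₂) (D ⊗ₖ D₂) ≤ G α A D * G α A₂ D₂ := by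
  obtain ⟨μ, hμ⟩ := hη
  have := hμ.sfin
  have hk := (hA.kron h)
  have p := toPP hA
  have p2 := toPP h
  have pk := toPP hk
  rw [G_eq_sd α hA.pos.1 hA.herm, G_eq_sd α h.pos.1 h.herm, G_eq_sd α hk.pos.1 hk.herm]
  have b1 : ((2 : ℕ) : ℝ) < α := by exact_mod_cast h2
  have b2 : α < ((2 : ℕ) : ℝ) + 1 := by push_cast; linarith
  exact range_ge (mf_ladE 2 (by linarith) b1 b2) (ladE_convex 1)
    (mf_ladL 2 (by linarith) b1 b2) (ladL_convex 1) h2.le h3.le (KE_pos 2 b1 b2)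
    (KL_pos 2 b1 b2) p p2 hμ.adm (measurable_ladE p.psd.1 p.herm 2) (measurable_ladE o1H o1H 2)
    (fun u hu => level2 p p2 hμ hu) (seq_all p2 hμ 1)

theorem ineq34 {α : ℝ} (h3 : 3 < α) (h4 : α < 4) {A₂ D₂ : Matrix κ κ ℂ}
    (h : IsPsdPair A₂ D₂) (hη : ExpDom A₂ D₂) (A D : Matrix ι ι ℂ) (hA : IsPsdPair A D) :
    G α A D * G α A₂ D₂ ≤ (2 ^ (α - 1) - 1) * G α (A ⊗ₖ A₂) (D ⊗ₖ D₂) := by
  obtain ⟨μ, hμ⟩ := hη
  have := hμ.sfin
  have hk := (hA.kron h)
  have p := toPP hA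
  have p2 := toPP h
  have pk := toPP hk
  rw [G_eq_sd α hA.pos.1 hA.herm, G_eq_sd α h.pos.1 h.herm, G_eq_sd α hk.pos.1 hk.herm]
  have b1 : ((3 : ℕ) : ℝ) < α := by exact_mod_cast h3
  have b2 : α < ((3 : ℕ) : ℝ) + 1 := by push_cast; linarith
  exact range_le (mf_ladE 3 (by linarith) b1 b2) (ladE_convex 2)
    (mf_ladL 3 (by linarith) b1 b2) (ladL_convex 2) (Or.inr ⟨h3.le, h4.le⟩)
    (mul_pos (KE_pos 3 b1 b2) (by linarith)) (mul_pos (KL_pos 3 b1 b2) (by linarith))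
    p p2 hμ.adm (measurable_ladE p.psd.1 p.herm 3) (measurable_ladE o1H o1H 3)
    (fun u hu => level3 p p2 hμ hu) (seq_all p2 hμ 2)

/-- exponential domination gives the inequalities of Q1 for all `α ∈ (0,4]`, `α ≠ 1` -/
theorem ineq_of_expDom {A₂ D₂ : Matrix κ κ ℂ} (h : IsPsdPair A₂ D₂) (hη : ExpDom A₂ D₂) (α : ℝ) :
    Ineq α A₂ D₂ := by
  intro ι _ _ A D hA
  constructor
  · rintro (⟨h0, h2, h1⟩ | ⟨h3, h4⟩)
    · rcases eq_or_lt_of_le h2 with rfl | h2'
      · obtain ⟨t1, t2⟩ := tendsto_sides A D A₂ D₂ 2 (by norm_num) (𝓝[<] 2) nhdsWithin_le_nhds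
        apply le_of_tendsto_of_tendsto t1 t2
        have hev : ∀ᶠ α : ℝ in 𝓝[<] 2, α ∈ Ioo (1 : ℝ) 2 := Ioo_mem_nhdsLT (by norm_num)
        filter_upwards [hev] with α hα
        exact ineq02 (by linarith [hα.1]) hα.2 (ne_of_gt hα.1) h hη A D hA
      · exact ineq02 h0 h2' h1 h hη A D hA
    · rcases eq_or_lt_of_le h3 with rfl | h3'
      · obtain ⟨t1, t2⟩ := tendsto_sides A D A₂ D₂ 3 (by norm_num) (𝓝[>] 3) nhdsWithin_le_nhds
        apply le_of_tendsto_of_tendsto t1 t2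
        have hev : ∀ᶠ α : ℝ in 𝓝[>] 3, α ∈ Ioo (3 : ℝ) 4 := Ioo_mem_nhdsGT (by norm_num)
        filter_upwards [hev] with α hα
        exact ineq34 hα.1 hα.2 h hη A D hA
      rcases eq_or_lt_of_le h4 with rfl | h4'
      · obtain ⟨t1, t2⟩ := tendsto_sides A D A₂ D₂ 4 (by norm_num) (𝓝[<] 4) nhdsWithin_le_nhds
        apply le_of_tendsto_of_tendsto t1 t2
        have hev : ∀ᶠ α : ℝ in 𝓝[<] 4, α ∈ Ioo (3 : ℝ) 4 := Ioo_mem_nhdsLT (by norm_num)
        filter_upwards [hev] with α hα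
        exact ineq34 hα.1 hα.2 h hη A D hA
      · exact ineq34 h3' h4' h hη A D hA
  · rintro ⟨h2, h3⟩
    rcases eq_or_lt_of_le h2 with rfl | h2'
    · obtain ⟨t1, t2⟩ := tendsto_sides A D A₂ D₂ 2 (by norm_num) (𝓝[>] 2) nhdsWithin_le_nhds
      apply le_of_tendsto_of_tendsto t2 t1
      have hev : ∀ᶠ α : ℝ in 𝓝[>] 2, α ∈ Ioo (2 : ℝ) 3 := Ioo_mem_nhdsGT (by norm_num)
      filter_upwards [hev] with α hα
      exact ineq23 hα.1 hα.2 h hη A D hA
    rcases eq_or_lt_of_le h3 with rfl | h3'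
    · obtain ⟨t1, t2⟩ := tendsto_sides A D A₂ D₂ 3 (by norm_num) (𝓝[<] 3) nhdsWithin_le_nhds
      apply le_of_tendsto_of_tendsto t2 t1
      have hev : ∀ᶠ α : ℝ in 𝓝[<] 3, α ∈ Ioo (2 : ℝ) 3 := Ioo_mem_nhdsLT (by norm_num)
      filter_upwards [hev] with α hα
      exact ineq23 hα.1 hα.2 h hη A D hA
    · exact ineq23 h2' h3' h hη A D hA

end Pool.Agent.LDK
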