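import Mathlib
import Pool.Agent.Lib_helper66.LDK.Star
import Pool.Agent.Lib_helper98.RenyiCfc

/-!
# Determinant and positivity of `r + B ⊗ R + N ⊗ e v v*` through the star function
-/

set_option autoImplicit false
set_option linter.unusedSectionVars false

open scoped BigOperators ComplexOrder Kronecker MatrixOrder
open Matrix

namespace Pool.Agent.LDK

variable {ι κ : Type*} [Fintype ι] [DecidableEq ι] [Fintype κ] [DecidableEq κ]

/-- `x ↦ x ⊗ v_i`, column by column -/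
noncomputable def colP (v : ι → κ → ℂ) : Matrix (ι × κ) ι ℂ :=
  of fun p j => if p.1 = j then v p.1 p.2 else 0

theorem colP_mul_conj (v : κ → ℂ) (N : Matrix ι ι ℂ) :
    (colP (fun _ => v) : Matrix (ι × κ) ι ℂ) * N *
      Matrix.conjTranspose (colP (fun _ => v) : Matrix (ι × κ) ι ℂ) =
      N ⊗ₖ vecMulVec v (star v) := by
  ext p q
  obtain ⟨i, k⟩ := p
  obtain ⟨i', k'⟩ := q
  have h1 : ∀ j, (colP (fun _ : ι => v) * N) (i, k) j = v k * N i j := by
    intro j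
    rw [mul_apply]
    simp [colP]
  rw [mul_apply]
  simp only [h1, conjTranspose_apply, kroneckerMap_apply, vecMulVec_apply, Pi.star_apply]
  rw [Finset.sum_eq_single i']
  · simp only [colP, of_apply, if_true]
    ring
  · intro l _ hl
    simp only [colP, of_apply, if_neg (Ne.symm hl), star_zero, mul_zero]
  · intro hh; exact absurd (Finset.mem_univ _) hh

theorem conj_mul_colP (v : κ → ℂ) (w : ι → κ → ℂ) :
    Matrix.conjTranspose (colP (fun _ => v) : Matrix (ι × κ) ι ℂ) * colP w =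
      diagonal fun i => star v ⬝ᵥ w i := by
  ext i j
  rw [mul_apply, Fintype.sum_prod_type, diagonal_apply]
  by_cases hij : i = j
  · subst hij
    rw [if_pos rfl, Finset.sum_eq_single i]
    · simp [colP, dotProduct]
    · intro l _ hl
      refine Finset.sum_eq_zero fun k _ => ?_
      simp [colP, hl]
    · intro hh; exact absurd (Finset.mem_univ _) hh
  · rw [if_neg hij]
    refine Finset.sum_eq_zero fun l _ => Finset.sum_eq_zero fun k _ => ?_
    by_cases h1 : l = i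
    · subst h1
      simp [colP, hij]
    · simp [colP, h1]

/-- `r + diag b ⊗ R` -/
noncomputable def bX (R : Matrix κ κ ℂ) (r : ℝ) (b : ι → ℝ) : Matrix (ι × κ) (ι × κ) ℂ :=
  r • (1 : Matrix (ι × κ) (ι × κ) ℂ) + (diagonal fun i => (b i : ℂ)) ⊗ₖ R

theorem bX_apply (R : Matrix κ κ ℂ) (r : ℝ) (b : ι → ℝ) (i i' : ι) (k k' : κ) :
    bX R r b (i, k) (i', k') = if i = i' then (r • (1 : Matrix κ κ ℂ) + b i • R) k k' else 0 := by
  unfold bX
  rw [Matrix.add_apply, Matrix.smul_apply, kroneckerMap_apply, diagonal_apply, one_apply]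
  by_cases h : i = i'
  · subst h
    rw [if_pos rfl, if_pos rfl, Matrix.add_apply, Matrix.smul_apply, Matrix.smul_apply, one_apply]
    by_cases h2 : k = k'
    · subst h2
      simp
    · simp [h2]
  · rw [if_neg h, if_neg h, if_neg (by intro h2; exact h (Prod.mk.inj h2).1)]
    simp

theorem bX_mul_colP (R : Matrix κ κ ℂ) (r : ℝ) (b : ι → ℝ) (w : ι → κ → ℂ) :
    bX R r b * colP w = colP fun i => (r • (1 : Matrix κ κ ℂ) + b i • R) *ᵥ w i := by
  ext p j
  obtain ⟨i, k⟩ := p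
  rw [mul_apply, Fintype.sum_prod_type, Finset.sum_eq_single i]
  · simp only [bX_apply, if_true, colP, of_apply]
    by_cases h : i = j
    · subst h
      simp [mulVec, dotProduct]
    · simp [h]
  · intro l _ hl
    refine Finset.sum_eq_zero fun k' _ => ?_
    rw [bX_apply, if_neg (Ne.symm hl), zero_mul]
  · intro hh; exact absurd (Finset.mem_univ _) hh

theorem bX_det (R : Matrix κ κ ℂ) (r : ℝ) (b : ι → ℝ) :
    (bX R r b).det = ∏ i, (r • (1 : Matrix κ κ ℂ) + b i • R).det := by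
  rw [← det_blockDiagonal]
  have : bX R r b = (blockDiagonal fun i => r • (1 : Matrix κ κ ℂ) + b i • R).submatrix
      (Equiv.prodComm ι κ) (Equiv.prodComm ι κ) := by
    ext p q
    obtain ⟨i, k⟩ := p
    obtain ⟨i', k'⟩ := q
    rw [bX_apply, submatrix_apply, blockDiagonal_apply]
    rfl
  rw [this, det_submatrix_equiv_self]

/-- the diagonal case -/
theorem det_star_diag {R : Matrix κ κ ℂ} {v : κ → ℂ} {J : ℕ} {a : Fin J → ℝ} {r e : ℝ}
    {b ψ : ι → ℝ} (hu : ∀ i, IsUnit (r • (1 : Matrix κ κ ℂ) + b i • R).det) (hψ : ∀ i, 0 < ψ i)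
    (h1 : ∀ i, star v ⬝ᵥ ((r • (1 : Matrix κ κ ℂ) + b i • R)⁻¹ *ᵥ v) = (((ψ i)⁻¹ : ℝ) : ℂ))
    (h2 : ∀ i, (r • (1 : Matrix κ κ ℂ) + b i • R).det =
      (((∏ j, (r + a j * b i)) * ψ i : ℝ) : ℂ)) (N : Matrix ι ι ℂ) :
    (bX R r b + N ⊗ₖ (e • vecMulVec v (star v))).det =
        (((∏ i, ∏ j, (r + a j * b i) : ℝ)) : ℂ) *
          ((diagonal fun i => (ψ i : ℂ)) + e • N).det ∧
      ((bX R r b + N ⊗ₖ (e • vecMulVec v (star v))).PosDef →
        ((diagonal fun i => (ψ i : ℂ)) + e • N).PosDef) := by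
  set P : Matrix (ι × κ) ι ℂ := colP (fun _ => v) with hP
  set Q : Matrix (ι × κ) ι ℂ :=
    colP (fun i => (r • (1 : Matrix κ κ ℂ) + b i • R)⁻¹ *ᵥ v) with hQ
  have hψc : ∀ i, (ψ i : ℂ) ≠ 0 := fun i => by exact_mod_cast (hψ i).ne'
  have hXQ : bX R r b * Q = P := by
    rw [hQ, bX_mul_colP, hP]
    congr 1
    funext i
    rw [mulVec_mulVec, mul_nonsing_inv _ (hu i), one_mulVec]
  have hPQ : Pᴴ * Q = diagonal fun i => ((ψ i : ℂ))⁻¹ := by
    rw [hP, hQ, conj_mul_colP]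
    congr 1
    funext i
    rw [h1]
    push_cast
    rfl
  have hQP : Qᴴ * P = diagonal fun i => ((ψ i : ℂ))⁻¹ := by
    have : Qᴴ * P = (Pᴴ * Q)ᴴ := by rw [conjTranspose_mul, conjTranspose_conjTranspose]
    rw [this, hPQ, diagonal_conjTranspose]
    congr 1
    funext i
    simp
  have hN : N ⊗ₖ (e • vecMulVec v (star v)) = P * (e • N) * Pᴴ := by
    rw [Matrix.mul_smul, Matrix.smul_mul, hP, colP_mul_conj, kronecker_smul]
  have hfac : bX R r b + N ⊗ₖ (e • vecMulVec v (star v)) =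
      bX R r b * (1 + (Q * (e • N)) * Pᴴ) := by
    rw [Matrix.mul_add, Matrix.mul_one, ← Matrix.mul_assoc, ← Matrix.mul_assoc, hXQ, hN]
  have hfac2 : 1 + Pᴴ * (Q * (e • N)) =
      (diagonal fun i => ((ψ i : ℂ))⁻¹) * ((diagonal fun i => (ψ i : ℂ)) + e • N) := by
    rw [Matrix.mul_add, ← Matrix.mul_assoc, hPQ, diagonal_mul_diagonal]
    congr 1
    rw [← diagonal_one]
    congr 1
    funext i
    exact (inv_mul_cancel₀ (hψc i)).symm
  constructor
  · rw [hfac, det_mul, det_one_add_mul_comm, hfac2, det_mul, det_diagonal, bX_det, ← mul_assoc]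
    congr 1
    rw [← Finset.prod_mul_distrib]
    push_cast
    refine Finset.prod_congr rfl fun i _ => ?_
    rw [h2]
    push_cast
    rw [mul_assoc, mul_inv_cancel₀ (hψc i), mul_one]
  · intro hpd
    set Q₂ : Matrix (ι × κ) ι ℂ := Q * diagonal fun i => (ψ i : ℂ) with hQ₂
    have hdd : (diagonal fun i => ((ψ i : ℂ))⁻¹) * (diagonal fun i => (ψ i : ℂ)) =
        (1 : Matrix ι ι ℂ) := by
      rw [diagonal_mul_diagonal, ← diagonal_one]
      congr 1
      funext i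
      exact inv_mul_cancel₀ (hψc i)
    have hdd' : (diagonal fun i => (ψ i : ℂ)) * (diagonal fun i => ((ψ i : ℂ))⁻¹) =
        (1 : Matrix ι ι ℂ) := by
      rw [diagonal_mul_diagonal, ← diagonal_one]
      congr 1
      funext i
      exact mul_inv_cancel₀ (hψc i)
    have hPQ₂ : Pᴴ * Q₂ = 1 := by
      rw [hQ₂, ← Matrix.mul_assoc, hPQ, hdd]
    have hQ₂P : Q₂ᴴ * P = 1 := by
      have : Q₂ᴴ * P = (Pᴴ * Q₂)ᴴ := by
        rw [conjTranspose_mul (M := Pᴴ), conjTranspose_conjTranspose]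
      rw [this, hPQ₂, conjTranspose_one]
    have hinj : Function.Injective Q₂.mulVec := by
      intro x y hxy
      have : Pᴴ *ᵥ (Q₂ *ᵥ x) = Pᴴ *ᵥ (Q₂ *ᵥ y) := congrArg _ hxy
      simpa only [mulVec_mulVec, hPQ₂, one_mulVec] using this
    have h3 := hpd.conjTranspose_mul_mul_same hinj
    have h4 : Q₂ᴴ * (bX R r b + N ⊗ₖ (e • vecMulVec v (star v))) * Q₂ =
        (diagonal fun i => (ψ i : ℂ)) + e • N := by
      have h5 : bX R r b * Q₂ = P * diagonal fun i => (ψ i : ℂ) := by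
        rw [hQ₂, ← Matrix.mul_assoc, hXQ]
      rw [Matrix.mul_assoc, Matrix.add_mul, h5, hN, Matrix.mul_assoc (P * (e • N)), hPQ₂,
        Matrix.mul_one, ← Matrix.mul_add, ← Matrix.mul_assoc, hQ₂P, Matrix.one_mul]
    rwa [h4] at h3

/-- **Determinant and positivity through the star function.** -/
theorem det_star {R : Matrix κ κ ℂ} {v : κ → ℂ} {J : ℕ} {al : ℝ} {a γ : Fin J → ℝ}
    (hR : R.PosDef) (ha : ∀ j, 0 < a j) (hγ : ∀ j, 0 ≤ γ j) (hal : 0 < al)
    (hs : ∀ r b : ℝ, 0 < r → 0 ≤ b →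
        star v ⬝ᵥ ((r • (1 : Matrix κ κ ℂ) + b • R)⁻¹ *ᵥ v) =
          (((starF al a γ r b)⁻¹ : ℝ) : ℂ) ∧
        (r • (1 : Matrix κ κ ℂ) + b • R).det =
          (((∏ j, (r + a j * b)) * starF al a γ r b : ℝ) : ℂ))
    {U : Matrix ι ι ℂ} (hU : Uᴴ * U = 1) (hU' : U * Uᴴ = 1) {b : ι → ℝ} (hb : ∀ i, 0 ≤ b i)
    {r : ℝ} (hr : 0 < r) (e : ℝ) (N : Matrix ι ι ℂ) :
    (r • (1 : Matrix (ι × κ) (ι × κ) ℂ) + (U * (diagonal fun i => (b i : ℂ)) * Uᴴ) ⊗ₖ R +
        N ⊗ₖ (e • vecMulVec v (star v))).det =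
        (((∏ i, ∏ j, (r + a j * b i) : ℝ)) : ℂ) *
          (U * (diagonal fun i => (starF al a γ r (b i) : ℂ)) * Uᴴ + e • N).det ∧
      ((r • (1 : Matrix (ι × κ) (ι × κ) ℂ) + (U * (diagonal fun i => (b i : ℂ)) * Uᴴ) ⊗ₖ R +
        N ⊗ₖ (e • vecMulVec v (star v))).PosDef →
        (U * (diagonal fun i => (starF al a γ r (b i) : ℂ)) * Uᴴ + e • N).PosDef) := by
  have key := det_star_diag (ι := ι) (R := R) (v := v) (a := a) (r := r) (e := e) (b := b)
    (ψ := fun i => starF al a γ r (b i))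
    (fun i => (isUnit_iff_ne_zero).2 (posDef_rb hR hr (hb i)).det_pos.ne')
    (fun i => starF_pos ha hγ hal.le hr (hb i)) (fun i => (hs r (b i) hr (hb i)).1)
    (fun i => (hs r (b i) hr (hb i)).2) (Uᴴ * N * U)
  set W : Matrix (ι × κ) (ι × κ) ℂ := U ⊗ₖ (1 : Matrix κ κ ℂ) with hW
  have hWH : Wᴴ = Uᴴ ⊗ₖ (1 : Matrix κ κ ℂ) := by
    rw [hW, conjTranspose_kronecker, conjTranspose_one]
  have hW1 : Wᴴ * W = 1 := by
    rw [hWH, hW, ← mul_kronecker_mul, hU, Matrix.one_mul, one_kronecker_one]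
  have hW2 : W * Wᴴ = 1 := by
    rw [hWH, hW, ← mul_kronecker_mul, hU', Matrix.one_mul, one_kronecker_one]
  have hUN : U * (Uᴴ * N * U) * Uᴴ = N := by
    calc U * (Uᴴ * N * U) * Uᴴ = (U * Uᴴ) * N * (U * Uᴴ) := by simp only [Matrix.mul_assoc]
      _ = N := by rw [hU', Matrix.one_mul, Matrix.mul_one]
  have hM : r • (1 : Matrix (ι × κ) (ι × κ) ℂ) + (U * (diagonal fun i => (b i : ℂ)) * Uᴴ) ⊗ₖ R +
      N ⊗ₖ (e • vecMulVec v (star v)) =
      W * (bX R r b + (Uᴴ * N * U) ⊗ₖ (e • vecMulVec v (star v))) * Wᴴ := by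
    unfold bX
    rw [Matrix.mul_add, Matrix.mul_add, Matrix.add_mul, Matrix.add_mul, Matrix.mul_smul,
      Matrix.smul_mul, Matrix.mul_one, hW2, hWH, hW, ← mul_kronecker_mul, ← mul_kronecker_mul,
      ← mul_kronecker_mul, ← mul_kronecker_mul, Matrix.one_mul, Matrix.one_mul, Matrix.mul_one,
      Matrix.mul_one, hUN]
  have hS : U * (diagonal fun i => (starF al a γ r (b i) : ℂ)) * Uᴴ + e • N =
      U * ((diagonal fun i => (starF al a γ r (b i) : ℂ)) + e • (Uᴴ * N * U)) * Uᴴ := by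
    rw [Matrix.mul_add, Matrix.add_mul, Matrix.mul_smul, Matrix.smul_mul, hUN]
  rw [hM, hS, det_conj_of_mul_eq_one hW2 hW1, det_conj_of_mul_eq_one hU' hU]
  refine ⟨key.1, fun hpd => ?_⟩
  have hi1 : Function.Injective W.mulVec := by
    intro x y hxy
    have : Wᴴ *ᵥ (W *ᵥ x) = Wᴴ *ᵥ (W *ᵥ y) := congrArg _ hxy
    simpa only [mulVec_mulVec, hW1, one_mulVec] using this
  have hi2 : Function.Injective Uᴴ.mulVec := by
    intro x y hxy
    have : U *ᵥ (Uᴴ *ᵥ x) = U *ᵥ (Uᴴ *ᵥ y) := congrArg _ hxy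
    simpa only [mulVec_mulVec, hU', one_mulVec] using this
  have h3 := hpd.conjTranspose_mul_mul_same hi1
  have h4 : Wᴴ * (W * (bX R r b + (Uᴴ * N * U) ⊗ₖ (e • vecMulVec v (star v))) * Wᴴ) * W =
      bX R r b + (Uᴴ * N * U) ⊗ₖ (e • vecMulVec v (star v)) := by
    calc _ = (Wᴴ * W) * (bX R r b + (Uᴴ * N * U) ⊗ₖ (e • vecMulVec v (star v))) * (Wᴴ * W) := by
          simp only [Matrix.mul_assoc]
      _ = _ := by rw [hW1, Matrix.one_mul, Matrix.mul_one]
  rw [h4] at h3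
  have h5 := (key.2 h3).conjTranspose_mul_mul_same hi2
  rwa [conjTranspose_conjTranspose] at h5

theorem det_conj_dg {U : Matrix ι ι ℂ} (hU : Uᴴ * U = 1) (hU' : U * Uᴴ = 1) (b : ι → ℝ)
    (r a : ℝ) : (r • (1 : Matrix ι ι ℂ) + a • (U * (diagonal fun i => (b i : ℂ)) * Uᴴ)).det =
      ((∏ i, (r + a * b i) : ℝ) : ℂ) := by
  have h : r • (1 : Matrix ι ι ℂ) + a • (U * (diagonal fun i => (b i : ℂ)) * Uᴴ) =
      U * (diagonal fun i => ((r + a * b i : ℝ) : ℂ)) * Uᴴ := by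
    have h1 : (diagonal fun i => ((r + a * b i : ℝ) : ℂ)) =
        r • (1 : Matrix ι ι ℂ) + a • (diagonal fun i => (b i : ℂ)) := by
      ext i j
      rw [Matrix.add_apply, Matrix.smul_apply, Matrix.smul_apply, diagonal_apply, diagonal_apply,
        one_apply]
      by_cases hij : i = j
      · simp [hij]
      · simp [hij]
    rw [h1, Matrix.mul_add, Matrix.add_mul, Matrix.mul_smul, Matrix.smul_mul, Matrix.mul_smul,
      Matrix.smul_mul, Matrix.mul_one, hU']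
  rw [h, det_conj_of_mul_eq_one hU' hU, det_diagonal]
  push_cast
  rfl

/-- logarithm of the determinant -/
noncomputable def ldet {n : Type*} [Fintype n] [DecidableEq n] (M : Matrix n n ℂ) : ℝ :=
  Real.log M.det.re

theorem det_re_pos {n : Type*} [Fintype n] [DecidableEq n] {M : Matrix n n ℂ} (hM : M.PosDef) :
    0 < M.det.re ∧ ((M.det.re : ℝ) : ℂ) = M.det := by
  have h := hM.det_pos
  rw [Complex.lt_def] at h
  refine ⟨by simpa using h.1, Complex.ext (by simp) ?_⟩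
  simpa using h.2

/-- `log det = ∑ log (eigenvalues)` -/
theorem ldet_eq_sum {n : Type*} [Fintype n] [DecidableEq n] {M : Matrix n n ℂ} (hM : M.PosDef) :
    ldet M = ∑ i, Real.log (hM.1.eigenvalues i) := by
  have h : M.det = ((∏ i, hM.1.eigenvalues i : ℝ) : ℂ) := by
    rw [hM.1.det_eq_prod_eigenvalues]
    push_cast
    rfl
  unfold ldet
  rw [h, Complex.ofReal_re]
  exact Real.log_prod fun i _ => (hM.eigenvalues_pos i).ne'

/-- **Star decomposition of `r + B ⊗ R + N ⊗ e v v*`.** -/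
theorem exists_det_star (R : Matrix κ κ ℂ) (hR : R.PosDef) (v : κ → ℂ) (hv : star v ⬝ᵥ v = 1) :
    ∃ (J : ℕ) (a γ : Fin J → ℝ) (al : ℝ), (∀ j, 0 < a j) ∧ (∀ j, 0 ≤ γ j) ∧ 0 < al ∧
      (∀ l e : ℝ, (l • R + e • vecMulVec v (star v)).PosSemidef → 0 ≤ l * al + e) ∧
      ∀ {ι : Type} [Fintype ι] [DecidableEq ι] (B N : Matrix ι ι ℂ) (r e : ℝ), B.PosSemidef →
        0 < r →
        (r • (1 : Matrix (ι × κ) (ι × κ) ℂ) + B ⊗ₖ R + N ⊗ₖ (e • vecMulVec v (star v))).det =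
          (∏ j, (r • (1 : Matrix ι ι ℂ) + a j • B).det) * (cfc (starF al a γ r) B + e • N).det ∧
        ((r • (1 : Matrix (ι × κ) (ι × κ) ℂ) + B ⊗ₖ R +
            N ⊗ₖ (e • vecMulVec v (star v))).PosDef →
          (cfc (starF al a γ r) B + e • N).PosDef ∧
          ldet (r • (1 : Matrix (ι × κ) (ι × κ) ℂ) + B ⊗ₖ R + N ⊗ₖ (e • vecMulVec v (star v))) =
            ∑ j, ldet (r • (1 : Matrix ι ι ℂ) + a j • B) +
              ldet (cfc (starF al a γ r) B + e • N)) := by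
  obtain ⟨J, a, γ, al, ha, hγ, hal, hpsd, hs⟩ := star_data R hR v hv
  refine ⟨J, a, γ, al, ha, hγ, hal, hpsd, ?_⟩
  intro ι _ _ B N r e hB hr
  obtain ⟨U, b, hU, hU', hb, hBU⟩ :
      ∃ (U : Matrix ι ι ℂ) (b : ι → ℝ), Uᴴ * U = 1 ∧ U * Uᴴ = 1 ∧ (∀ i, 0 ≤ b i) ∧
        B = U * (diagonal fun i => (b i : ℂ)) * Uᴴ := by
    refine ⟨(hB.1.eigenvectorUnitary : Matrix ι ι ℂ), hB.1.eigenvalues, ?_, ?_,
      hB.eigenvalues_nonneg, ?_⟩
    · exact Unitary.coe_star_mul_self hB.1.eigenvectorUnitary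
    · exact Unitary.coe_mul_star_self hB.1.eigenvectorUnitary
    · conv_lhs => rw [hB.1.spectral_theorem, Unitary.conjStarAlgAut_apply]
      rfl
  have hcfc : cfc (starF al a γ r) B =
      U * (diagonal fun i => (starF al a γ r (b i) : ℂ)) * Uᴴ := by
    rw [hBU, Pool.Agent.Lib_helper98.Renyi.cfc_conj_diagonal _ U hU]
  have key := det_star hR ha hγ hal hs hU hU' hb hr e N
  rw [← hBU, ← hcfc] at key
  have hdj : ∀ j, (r • (1 : Matrix ι ι ℂ) + a j • B).det = ((∏ i, (r + a j * b i) : ℝ) : ℂ) := by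
    intro j
    rw [hBU]
    exact det_conj_dg hU hU' b r (a j)
  have hprod : (((∏ i, ∏ j, (r + a j * b i) : ℝ)) : ℂ) =
      ∏ j, (r • (1 : Matrix ι ι ℂ) + a j • B).det := by
    simp only [hdj]
    rw [Finset.prod_comm]
    push_cast
    rfl
  have h1 := key.1
  rw [hprod] at h1
  refine ⟨h1, fun hM => ⟨key.2 hM, ?_⟩⟩
  have hS := key.2 hM
  have hpj : ∀ j, 0 < ∏ i, (r + a j * b i) := fun j =>
    Finset.prod_pos fun i _ => by have := mul_nonneg (ha j).le (hb i); linarith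
  have e1 : ∀ j, ldet (r • (1 : Matrix ι ι ℂ) + a j • B) = Real.log (∏ i, (r + a j * b i)) := by
    intro j
    unfold ldet
    rw [hdj, Complex.ofReal_re]
  simp only [e1]
  have h2 := (det_re_pos hS).2
  unfold ldet
  rw [h1]
  simp only [hdj]
  rw [← h2, ← Complex.ofReal_prod, ← Complex.ofReal_mul, Complex.ofReal_re, Complex.ofReal_re,
    Real.log_mul (Finset.prod_pos fun j _ => hpj j).ne' (det_re_pos hS).1.ne',
    Real.log_prod fun j _ => (hpj j).ne']

end Pool.Agent.LDK
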