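import Pool.Agent.Lib_helper92.RC.S24a

/-!
# LDK, block MIX, part A: the two ladders `1 - e^{-t}`, `log (1 + t)` and their Mellin integrals
-/

set_option autoImplicit false

open scoped BigOperators Topology
open MeasureTheory Set Filter

namespace Pool.Agent.LDK

/-- ladder: `F₀ = f`, `F_{m+1} = c_{m+1} t^{m+1} - F_m` -/
noncomputable def lad (f : ℝ → ℝ) (c : ℕ → ℝ) : ℕ → ℝ → ℝ
  | 0 => f
  | m + 1 => fun t => c (m + 1) * t ^ (m + 1) - lad f c m t

/-- `1 - e^{-t}` -/
noncomputable def fE (t : ℝ) : ℝ := 1 - Real.exp (-t)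

/-- `1 / m!` -/
noncomputable def cE (m : ℕ) : ℝ := ((m.factorial : ℝ))⁻¹

/-- `log (1 + t)` -/
noncomputable def fL (t : ℝ) : ℝ := Real.log (1 + t)

/-- `1 / m` -/
noncomputable def cL (m : ℕ) : ℝ := ((m : ℝ))⁻¹

theorem fE_deriv (t : ℝ) : HasDerivAt fE (Real.exp (-t)) t := by
  have h := (((hasDerivAt_neg t).exp).const_sub 1).congr_deriv
    (show -(Real.exp (-t) * -1) = Real.exp (-t) by ring)
  exact h

theorem ladE_deriv (m : ℕ) (t : ℝ) : HasDerivAt (lad fE cE (m + 1)) (lad fE cE m t) t := by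
  induction m with
  | zero =>
    have h1 : HasDerivAt (fun t : ℝ => cE (0 + 1) * t ^ (0 + 1)) 1 t :=
      ((hasDerivAt_pow (0 + 1) t).const_mul (cE (0 + 1))).congr_deriv (by simp [cE])
    have h := h1.sub (fE_deriv t)
    exact h
  | succ m ih =>
    have h1 : HasDerivAt (fun t : ℝ => cE (m + 1 + 1) * t ^ (m + 1 + 1))
        (cE (m + 1) * t ^ (m + 1)) t := by
      have h2 := (hasDerivAt_pow (m + 1 + 1) t).const_mul (cE (m + 1 + 1))
      refine h2.congr_deriv ?_
      have h3 : cE (m + 1) = cE (m + 1 + 1) * ((m + 1 + 1 : ℕ) : ℝ) := by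
        unfold cE
        rw [Nat.factorial_succ (m + 1)]
        have : ((m + 1).factorial : ℝ) ≠ 0 := by positivity
        push_cast
        field_simp
      rw [h3]
      simp only [Nat.add_sub_cancel]
      ring
    exact h1.sub ih

theorem fL_deriv {t : ℝ} (ht : -1 < t) : HasDerivAt fL (1 / (1 + t)) t := by
  have h1 : HasDerivAt (fun t : ℝ => 1 + t) 1 t := (hasDerivAt_id t).const_add 1
  exact h1.log (by linarith)

theorem ladL_deriv (m : ℕ) {t : ℝ} (ht : -1 < t) :
    HasDerivAt (lad fL cL m) (t ^ m / (1 + t)) t := by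
  induction m with
  | zero => simpa [lad] using fL_deriv ht
  | succ m ih =>
    have h1 : HasDerivAt (fun t : ℝ => cL (m + 1) * t ^ (m + 1)) (t ^ m) t := by
      have h2 := (hasDerivAt_pow (m + 1) t).const_mul (cL (m + 1))
      refine h2.congr_deriv ?_
      unfold cL
      simp only [Nat.add_sub_cancel]
      have : ((m + 1 : ℕ) : ℝ) ≠ 0 := by positivity
      field_simp
    have h := h1.sub ih
    have e : t ^ m - t ^ m / (1 + t) = t ^ (m + 1) / (1 + t) := by
      have : 1 + t ≠ 0 := by linarith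
      field_simp
      ring
    rw [e] at h
    exact h

theorem pos_of_deriv_pos {F F' : ℝ → ℝ} (h0 : F 0 = 0)
    (hd : ∀ t, 0 ≤ t → HasDerivAt F (F' t) t) (hp : ∀ t, 0 < t → 0 < F' t) {t : ℝ} (ht : 0 < t) :
    0 < F t := by
  have hm : StrictMonoOn F (Ici 0) := by
    apply strictMonoOn_of_deriv_pos (convex_Ici 0)
      (fun t ht => (hd t ht).continuousAt.continuousWithinAt)
    intro t ht
    rw [interior_Ici] at ht
    rw [(hd t (le_of_lt ht)).deriv]
    exact hp t ht
  have := hm (mem_Ici.2 le_rfl) (mem_Ici.2 ht.le) ht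
  rwa [h0] at this

theorem ladE_zero (m : ℕ) : lad fE cE m 0 = 0 := by
  induction m with
  | zero => simp [lad, fE]
  | succ m ih => simp [lad, ih]

theorem ladL_zero (m : ℕ) : lad fL cL m 0 = 0 := by
  induction m with
  | zero => simp [lad, fL]
  | succ m ih => simp [lad, ih]

theorem ladE_pos (m : ℕ) {t : ℝ} (ht : 0 < t) : 0 < lad fE cE m t := by
  induction m generalizing t with
  | zero =>
    have : Real.exp (-t) < 1 := by
      rw [Real.exp_lt_one_iff]
      linarith
    show 0 < 1 - Real.exp (-t)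
    linarith
  | succ m ih =>
    exact pos_of_deriv_pos (ladE_zero (m + 1)) (fun t _ => ladE_deriv m t) (fun t ht => ih ht) ht

theorem ladL_pos (m : ℕ) {t : ℝ} (ht : 0 < t) : 0 < lad fL cL m t :=
  pos_of_deriv_pos (ladL_zero m) (fun t ht => ladL_deriv m (by linarith))
    (fun t ht => by positivity) ht

theorem ladE_nonneg (m : ℕ) {t : ℝ} (ht : 0 ≤ t) : 0 ≤ lad fE cE m t := by
  rcases ht.eq_or_lt with rfl | h
  · rw [ladE_zero]
  · exact (ladE_pos m h).le

theorem ladL_nonneg (m : ℕ) {t : ℝ} (ht : 0 ≤ t) : 0 ≤ lad fL cL m t := by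
  rcases ht.eq_or_lt with rfl | h
  · rw [ladL_zero]
  · exact (ladL_pos m h).le

/-- `F_m ≤ c_{m+1} t^{m+1}` -/
theorem ladE_le (m : ℕ) {t : ℝ} (ht : 0 ≤ t) : lad fE cE m t ≤ cE (m + 1) * t ^ (m + 1) := by
  have h := ladE_nonneg (m + 1) ht
  have e : lad fE cE (m + 1) t = cE (m + 1) * t ^ (m + 1) - lad fE cE m t := rfl
  linarith

theorem ladL_le (m : ℕ) {t : ℝ} (ht : 0 ≤ t) : lad fL cL m t ≤ cL (m + 1) * t ^ (m + 1) := by
  have h := ladL_nonneg (m + 1) ht
  have e : lad fL cL (m + 1) t = cL (m + 1) * t ^ (m + 1) - lad fL cL m t := rfl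
  linarith

/-- `F_m ≤ c_m t^m`, `1 ≤ m` -/
theorem ladE_le' (m : ℕ) {t : ℝ} (ht : 0 ≤ t) : lad fE cE m t ≤ cE m * t ^ m := by
  rcases m with _ | m
  · have : 0 < Real.exp (-t) := Real.exp_pos _
    show 1 - Real.exp (-t) ≤ cE 0 * t ^ 0
    simp [cE]
    linarith
  · have h := ladE_nonneg m ht
    have e : lad fE cE (m + 1) t = cE (m + 1) * t ^ (m + 1) - lad fE cE m t := rfl
    linarith

theorem ladL_le' (m : ℕ) {t : ℝ} (ht : 0 ≤ t) :
    lad fL cL (m + 1) t ≤ cL (m + 1) * t ^ (m + 1) := by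
  have h := ladL_nonneg m ht
  have e : lad fL cL (m + 1) t = cL (m + 1) * t ^ (m + 1) - lad fL cL m t := rfl
  linarith

theorem cE_le_one (m : ℕ) : cE m ≤ 1 := by
  unfold cE
  apply inv_le_one_of_one_le₀
  exact_mod_cast Nat.succ_le_of_lt (Nat.factorial_pos m)

theorem cL_le_one (m : ℕ) : cL (m + 1) ≤ 1 := by
  unfold cL
  apply inv_le_one_of_one_le₀
  push_cast
  have : (0 : ℝ) ≤ m := Nat.cast_nonneg m
  linarith

theorem ladE_cont (m : ℕ) : Continuous (lad fE cE m) := by
  induction m with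
  | zero =>
    show Continuous fun t : ℝ => 1 - Real.exp (-t)
    fun_prop
  | succ m ih =>
    show Continuous fun t => cE (m + 1) * t ^ (m + 1) - lad fE cE m t
    exact (by fun_prop : Continuous fun t : ℝ => cE (m + 1) * t ^ (m + 1)).sub ih

theorem ladL_cont (m : ℕ) : ContinuousOn (lad fL cL m) (Ioi (-1)) := fun t ht =>
  (ladL_deriv m ht).continuousAt.continuousWithinAt

/-- Mellin integrability, exponential ladder -/
theorem ladE_int (m : ℕ) {α : ℝ} (h1 : (m : ℝ) < α) (h2 : α < m + 1) :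
    IntegrableOn (fun r : ℝ => r ^ (α - 1) * lad fE cE m (1 / r)) (Ioi 0) := by
  apply RC.S24.gen_int (K := 1) (p := m) (q := m + 1) (ladE_cont m).continuousOn _ _ h1
    (by push_cast; exact h2)
  · intro t ht
    rw [abs_of_nonneg (ladE_nonneg m (by linarith))]
    exact (ladE_le' m (by linarith)).trans
      (mul_le_mul_of_nonneg_right (cE_le_one m) (by positivity))
  · intro t ht _
    rw [abs_of_nonneg (ladE_nonneg m ht.le)]
    exact (ladE_le m ht.le).trans
      (mul_le_mul_of_nonneg_right (cE_le_one (m + 1)) (by positivity))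

/-- Mellin integrability, logarithmic ladder -/
theorem ladL_int (m : ℕ) {α : ℝ} (h1 : (m : ℝ) < α) (h2 : α < m + 1) :
    IntegrableOn (fun r : ℝ => r ^ (α - 1) * lad fL cL m (1 / r)) (Ioi 0) := by
  rcases m with _ | m
  · have := RC.SER.int0 (α := α) (by simpa using h1) (by simpa using h2)
    exact this
  · apply RC.S24.gen_int (K := 1) (p := m + 1) (q := m + 1 + 1)
      ((ladL_cont (m + 1)).mono (Ioi_subset_Ioi (by norm_num))) _ _ h1 (by push_cast at h2 ⊢; exact h2)
    · intro t ht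
      rw [abs_of_nonneg (ladL_nonneg (m + 1) (by linarith))]
      exact (ladL_le' m (by linarith)).trans
        (mul_le_mul_of_nonneg_right (cL_le_one m) (by positivity))
    · intro t ht _
      rw [abs_of_nonneg (ladL_nonneg (m + 1) ht.le)]
      exact (ladL_le (m + 1) ht.le).trans
        (mul_le_mul_of_nonneg_right (cL_le_one (m + 1)) (by positivity))

/-- the constants -/
noncomputable def KE (m : ℕ) (α : ℝ) : ℝ := ∫ r in Ioi (0 : ℝ), r ^ (α - 1) * lad fE cE m (1 / r)

noncomputable def KL (m : ℕ) (α : ℝ) : ℝ := ∫ r in Ioi (0 : ℝ), r ^ (α - 1) * lad fL cL m (1 / r)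

theorem KE_pos (m : ℕ) {α : ℝ} (h1 : (m : ℝ) < α) (h2 : α < m + 1) : 0 < KE m α :=
  RC.SER.pos_integral (fun r hr => mul_pos (Real.rpow_pos_of_pos hr _)
    (ladE_pos m (one_div_pos.2 hr))) (ladE_int m h1 h2)

theorem KL_pos (m : ℕ) {α : ℝ} (h1 : (m : ℝ) < α) (h2 : α < m + 1) : 0 < KL m α :=
  RC.SER.pos_integral (fun r hr => mul_pos (Real.rpow_pos_of_pos hr _)
    (ladL_pos m (one_div_pos.2 hr))) (ladL_int m h1 h2)

/-! ### convexity -/

theorem ladE_convex (m : ℕ) : ConvexOn ℝ (Ici 0) (lad fE cE (m + 1)) := by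
  apply MonotoneOn.convexOn_of_deriv (convex_Ici 0)
    (fun t _ => (ladE_deriv m t).continuousAt.continuousWithinAt)
    (fun t _ => (ladE_deriv m t).differentiableAt.differentiableWithinAt)
  rw [interior_Ici]
  have h : MonotoneOn (lad fE cE m) (Ici 0) := by
    rcases m with _ | m
    · apply monotoneOn_of_deriv_nonneg (convex_Ici 0)
        (fun t _ => (fE_deriv t).continuousAt.continuousWithinAt)
        (fun t _ => (fE_deriv t).differentiableAt.differentiableWithinAt)
      intro t _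
      show 0 ≤ deriv fE t
      rw [(fE_deriv t).deriv]
      exact (Real.exp_pos _).le
    · apply monotoneOn_of_deriv_nonneg (convex_Ici 0)
        (fun t _ => (ladE_deriv m t).continuousAt.continuousWithinAt)
        (fun t _ => (ladE_deriv m t).differentiableAt.differentiableWithinAt)
      intro t ht
      rw [interior_Ici] at ht
      rw [(ladE_deriv m t).deriv]
      exact ladE_nonneg m (le_of_lt ht)
  intro s hs t ht hst
  rw [(ladE_deriv m s).deriv, (ladE_deriv m t).deriv]
  exact h (mem_Ici.2 (le_of_lt hs)) (mem_Ici.2 (le_of_lt ht)) hst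

theorem ladL_convex (m : ℕ) : ConvexOn ℝ (Ici 0) (lad fL cL (m + 1)) := by
  apply MonotoneOn.convexOn_of_deriv (convex_Ici 0)
    (fun t ht => (ladL_deriv (m + 1) (by
      have : (0 : ℝ) ≤ t := ht
      linarith)).continuousAt.continuousWithinAt)
    (fun t ht => by
      rw [interior_Ici] at ht
      have : (0 : ℝ) < t := ht
      exact (ladL_deriv (m + 1) (by linarith)).differentiableAt.differentiableWithinAt)
  rw [interior_Ici]
  intro s hs t ht hst
  have hs0 : (0 : ℝ) < s := hs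
  have ht0 : (0 : ℝ) < t := ht
  rw [(ladL_deriv (m + 1) (by linarith : -1 < s)).deriv,
    (ladL_deriv (m + 1) (by linarith : -1 < t)).deriv, div_le_div_iff₀ (by linarith) (by linarith)]
  have h1 : s ^ m ≤ t ^ m := pow_le_pow_left₀ hs0.le hst m
  have h2 : 0 ≤ s ^ m := by positivity
  rw [pow_succ, pow_succ]
  have h3 : s * (1 + t) ≤ t * (1 + s) := by nlinarith
  calc s ^ m * s * (1 + t) = s ^ m * (s * (1 + t)) := by ring
    _ ≤ t ^ m * (t * (1 + s)) := mul_le_mul h1 h3 (by positivity) (by positivity)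
    _ = t ^ m * t * (1 + s) := by ring

theorem convex_scale {f : ℝ → ℝ} (hf : ConvexOn ℝ (Ici 0) f) {r : ℝ} (hr : 0 < r) :
    ConvexOn ℝ (Ici 0) (fun t => f (t / r)) := by
  refine ⟨convex_Ici 0, fun x hx y hy a b ha hb hab => ?_⟩
  have h := hf.2 (show x / r ∈ Ici (0 : ℝ) from div_nonneg hx hr.le)
    (show y / r ∈ Ici (0 : ℝ) from div_nonneg hy hr.le) ha hb hab
  have e : (a • x + b • y) / r = a • (x / r) + b • (y / r) := by
    simp only [smul_eq_mul]
    ring
  simp only
  rw [e]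
  exact h

end Pool.Agent.LDK
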