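import Pool.Agent.Lib_helper66.LDK.MixA
import Pool.Agent.Lib_helper59.RCT.Iface
import Pool.Agent.Lib_helper59.RCT.Mel

/-!
# LDK, block MIX, part B: second differences of the ladders, power traces, measurability
-/

set_option autoImplicit false
set_option linter.unusedSectionVars false

open scoped BigOperators Topology ENNReal ComplexOrder Kronecker
open MeasureTheory Set Filter Matrix

namespace Pool.Agent.LDK.Mix

open Pool.Agent.Lib_helper59.RCT Pool.Agent.Lib_helper59.Lieb
open Pool.Agent.Lib_helper98.Renyi (exists_spectral trF_conj_diagonal trF_midpoint)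

section

variable {n : Type*} [Fintype n] [DecidableEq n]

theorem eigsH {M : Matrix n n ℂ} (hM : M.IsHermitian) :
    ∃ c : n → ℝ, ∀ f : ℝ → ℝ, Lib_helper98.Renyi.trF f M = ∑ i, f (c i) := by
  obtain ⟨U, c, hU, hU', rfl⟩ := exists_spectral hM
  exact ⟨c, fun f => trF_conj_diagonal f U hU c⟩

theorem sdH {A D : Matrix n n ℂ} (hA : A.IsHermitian) (hD : D.IsHermitian) :
    ∃ a b c : n → ℝ, ∀ f : ℝ → ℝ, sd f A D = (∑ i, f (a i) + ∑ i, f (b i)) / 2 - ∑ i, f (c i) := by
  obtain ⟨a, ha⟩ := eigsH (hA.add hD)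
  obtain ⟨b, hb⟩ := eigsH (hA.sub hD)
  obtain ⟨c, hc⟩ := eigsH hA
  exact ⟨a, b, c, fun f => by unfold sd; rw [ha, hb, hc]⟩

theorem sdH_sub {A D : Matrix n n ℂ} (hA : A.IsHermitian) (hD : D.IsHermitian) (k : ℝ)
    (f g : ℝ → ℝ) : sd (fun x => k * f x - g x) A D = k * sd f A D - sd g A D := by
  obtain ⟨a, b, c, h⟩ := sdH hA hD
  rw [h, h, h]
  simp only [Finset.sum_sub_distrib, ← Finset.mul_sum]
  ring

theorem sdH_neg {A D : Matrix n n ℂ} (hA : A.IsHermitian) (hD : D.IsHermitian)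
    (f : ℝ → ℝ) : sd (fun x => - f x) A D = - sd f A D := by
  obtain ⟨a, b, c, h⟩ := sdH hA hD
  rw [h, h]
  simp only [Finset.sum_neg_distrib]
  ring

theorem sdH_const_sub {A D : Matrix n n ℂ} (hA : A.IsHermitian) (hD : D.IsHermitian) (k : ℝ)
    (f : ℝ → ℝ) : sd (fun x => k - f x) A D = - sd f A D := by
  obtain ⟨a, b, c, h⟩ := sdH hA hD
  rw [h, h]
  simp only [Finset.sum_sub_distrib, Finset.sum_const]
  ring

/-- power traces -/
noncomputable def T (k : ℕ) (A D : Matrix n n ℂ) : ℝ := sd (fun x => x ^ k) A D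

theorem trf_pow {M : Matrix n n ℂ} (hM : M.IsHermitian) (k : ℕ) :
    Lib_helper98.Renyi.trF (fun x => x ^ k) M = ((M ^ k).trace).re := by
  unfold Pool.Agent.Lib_helper98.Renyi.trF
  rw [cfc_pow_id (R := ℝ) M k hM.isSelfAdjoint]

theorem T_eq {A D : Matrix n n ℂ} (hA : A.IsHermitian) (hD : D.IsHermitian) (k : ℕ) :
    T k A D = ((((A + D) ^ k).trace).re + (((A - D) ^ k).trace).re) / 2 - ((A ^ k).trace).re := by
  unfold T sd
  rw [trf_pow (hA.add hD), trf_pow (hA.sub hD), trf_pow hA]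

theorem T_one {A D : Matrix n n ℂ} (hA : A.IsHermitian) (hD : D.IsHermitian) : T 1 A D = 0 := by
  rw [T_eq hA hD]
  simp only [pow_one, trace_add, trace_sub, Complex.add_re, Complex.sub_re]
  ring

theorem smulH {A : Matrix n n ℂ} (hA : A.IsHermitian) (a : ℝ) : (a • A).IsHermitian := by
  rw [Matrix.IsHermitian, conjTranspose_smul, hA.eq]
  simp

theorem trace_real_smul (a : ℝ) (M : Matrix n n ℂ) : ((a • M).trace).re = a * (M.trace).re := by
  rw [trace_smul]
  simp

theorem T_smul {A D : Matrix n n ℂ} (hA : A.IsHermitian) (hD : D.IsHermitian) (k : ℕ) (u : ℝ) :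
    T k (u • A) (u • D) = u ^ k * T k A D := by
  rw [T_eq (smulH hA u) (smulH hD u), T_eq hA hD, ← smul_add, ← smul_sub, smul_pow, smul_pow,
    smul_pow, trace_real_smul, trace_real_smul, trace_real_smul]
  ring

theorem T_nonneg {A D : Matrix n n ℂ} (h : PP A D) (k : ℕ) : 0 ≤ T k A D :=
  sd_nonneg (convexOn_pow k) h

theorem T_two {A D : Matrix n n ℂ} (hA : A.IsHermitian) (hD : D.IsHermitian) :
    T 2 A D = ((D * D).trace).re := by
  have e : (A + D) ^ 2 + (A - D) ^ 2 = A ^ 2 + A ^ 2 + (D * D + D * D) := by noncomm_ring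
  have e2 := congrArg (fun M => (Matrix.trace M).re) e
  simp only [trace_add, Complex.add_re] at e2
  rw [T_eq hA hD]
  linarith

theorem T_three {A D : Matrix n n ℂ} (hA : A.IsHermitian) (hD : D.IsHermitian) :
    T 3 A D = 3 * ((A * D * D).trace).re := by
  have e : (A + D) ^ 3 + (A - D) ^ 3 = A ^ 3 + A ^ 3 +
      ((A * D * D + A * D * D) + (D * A * D + D * A * D) + (D * D * A + D * D * A)) := by
    noncomm_ring
  have e2 := congrArg (fun M => (Matrix.trace M).re) e
  have h1 : (D * A * D).trace = (A * D * D).trace := by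
    rw [trace_mul_comm, ← Matrix.mul_assoc, trace_mul_comm, Matrix.mul_assoc, ← Matrix.mul_assoc]
  have h2 : (D * D * A).trace = (A * D * D).trace := by
    rw [trace_mul_comm, ← Matrix.mul_assoc]
  simp only [trace_add, Complex.add_re, h1, h2] at e2
  rw [T_eq hA hD]
  linarith

theorem T_two_smul {A D : Matrix n n ℂ} (hA : A.IsHermitian) (hD : D.IsHermitian) (a b : ℝ) :
    T 2 (a • A) (b • D) = b ^ 2 * T 2 A D := by
  rw [T_two (smulH hA a) (smulH hD b), T_two hA hD, Matrix.smul_mul, Matrix.mul_smul, smul_smul,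
    trace_real_smul]
  ring

theorem T_three_smul {A D : Matrix n n ℂ} (hA : A.IsHermitian) (hD : D.IsHermitian) (a b : ℝ) :
    T 3 (a • A) (b • D) = a * b ^ 2 * T 3 A D := by
  rw [T_three (smulH hA a) (smulH hD b), T_three hA hD]
  simp only [Matrix.smul_mul, Matrix.mul_smul, smul_smul]
  rw [trace_real_smul]
  ring

theorem tr2_real {D : Matrix n n ℂ} (hD : D.IsHermitian) : ((D * D).trace).im = 0 := by
  have h : star ((D * D).trace) = (D * D).trace := by
    rw [← trace_conjTranspose, conjTranspose_mul, hD.eq]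
  exact Complex.conj_eq_iff_im.1 h

theorem tr3_real {A D : Matrix n n ℂ} (hA : A.IsHermitian) (hD : D.IsHermitian) :
    ((A * D * D).trace).im = 0 := by
  have h : star ((A * D * D).trace) = (A * D * D).trace := by
    rw [← trace_conjTranspose, conjTranspose_mul, conjTranspose_mul, hD.eq, hA.eq,
      ← Matrix.mul_assoc, trace_mul_comm, ← Matrix.mul_assoc]
  exact Complex.conj_eq_iff_im.1 h

end

section

variable {n m : Type*} [Fintype n] [DecidableEq n] [Fintype m] [DecidableEq m]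

theorem kronH {A : Matrix n n ℂ} {B : Matrix m m ℂ} (hA : A.IsHermitian) (hB : B.IsHermitian) :
    (A ⊗ₖ B).IsHermitian := by
  rw [Matrix.IsHermitian, conjTranspose_kronecker, hA.eq, hB.eq]

theorem T_two_kron {A D : Matrix n n ℂ} {A2 D2 : Matrix m m ℂ} (hA : A.IsHermitian)
    (hD : D.IsHermitian) (hA2 : A2.IsHermitian) (hD2 : D2.IsHermitian) :
    T 2 (A ⊗ₖ A2) (D ⊗ₖ D2) = T 2 A D * T 2 A2 D2 := by
  rw [T_two (kronH hA hA2) (kronH hD hD2), T_two hA hD, T_two hA2 hD2, ← mul_kronecker_mul,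
    trace_kronecker, Complex.mul_re, tr2_real hD, tr2_real hD2]
  ring

theorem T_three_kron {A D : Matrix n n ℂ} {A2 D2 : Matrix m m ℂ} (hA : A.IsHermitian)
    (hD : D.IsHermitian) (hA2 : A2.IsHermitian) (hD2 : D2.IsHermitian) :
    T 3 (A ⊗ₖ A2) (D ⊗ₖ D2) = T 3 A D * T 3 A2 D2 / 3 := by
  rw [T_three (kronH hA hA2) (kronH hD hD2), T_three hA hD, T_three hA2 hD2,
    ← mul_kronecker_mul, ← mul_kronecker_mul, trace_kronecker, Complex.mul_re, tr3_real hA hD,
    tr3_real hA2 hD2]
  ring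

end

section ladder

variable {n : Type*} [Fintype n] [DecidableEq n]

theorem sd_lad_succ (f : ℝ → ℝ) (c : ℕ → ℝ) (m : ℕ) {A D : Matrix n n ℂ} (hA : A.IsHermitian)
    (hD : D.IsHermitian) :
    sd (lad f c (m + 1)) A D = c (m + 1) * T (m + 1) A D - sd (lad f c m) A D :=
  sdH_sub hA hD (c (m + 1)) (fun x => x ^ (m + 1)) (lad f c m)

theorem sd_ladE_zero {A D : Matrix n n ℂ} (hA : A.IsHermitian) (hD : D.IsHermitian) :
    sd (lad fE cE 0) A D = - sd en A D := sdH_const_sub hA hD 1 en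

theorem sd_ladE_one {A D : Matrix n n ℂ} (hA : A.IsHermitian) (hD : D.IsHermitian) :
    sd (lad fE cE 1) A D = sd en A D := by
  rw [sd_lad_succ _ _ _ hA hD, sd_ladE_zero hA hD, zero_add, T_one hA hD]
  ring

theorem sd_nl {A D : Matrix n n ℂ} (hA : A.IsHermitian) (hD : D.IsHermitian) :
    sd nl A D = - sd (lad fL cL 0) A D := sdH_neg hA hD (lad fL cL 0)

theorem sd_ladL_one {A D : Matrix n n ℂ} (hA : A.IsHermitian) (hD : D.IsHermitian) :
    sd (lad fL cL 1) A D = sd nl A D := by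
  rw [sd_lad_succ _ _ _ hA hD, sd_nl hA hD, zero_add, T_one hA hD]
  ring

theorem sdE_nonneg {A D : Matrix n n ℂ} (h : PP A D) (m : ℕ) : 0 ≤ sd (lad fE cE (m + 1)) A D :=
  sd_nonneg (ladE_convex m) h

theorem sdL_nonneg {A D : Matrix n n ℂ} (h : PP A D) (m : ℕ) : 0 ≤ sd (lad fL cL (m + 1)) A D :=
  sd_nonneg (ladL_convex m) h

/-- pairs along a direction -/
theorem PP.dir {A D : Matrix n n ℂ} (h : PP A D) {x y : ℝ} (hxy : |y| ≤ x) :
    PP (x • A) (y • D) := by
  have h1 := abs_le.1 hxy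
  constructor
  · have e : x • A + y • D = ((x + y) / 2) • (A + D) + ((x - y) / 2) • (A - D) := by
      module
    rw [e]
    exact (h.add.smul (by linarith)).add (h.sub.smul (by linarith))
  · have e : x • A - y • D = ((x - y) / 2) • (A + D) + ((x + y) / 2) • (A - D) := by
      module
    rw [e]
    exact (h.add.smul (by linarith)).add (h.sub.smul (by linarith))

theorem PP.one : PP (1 : Matrix n n ℂ) 1 := by
  constructor
  · exact PosSemidef.one.add PosSemidef.one
  · rw [sub_self]; exact PosSemidef.zero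

theorem measurable_T {A D : Matrix n n ℂ} (hA : A.IsHermitian) (hD : D.IsHermitian) (k : ℕ) :
    Measurable fun q : ℝ × ℝ => T k (q.1 • A) (q.2 • D) := by
  have e : (fun q : ℝ × ℝ => T k (q.1 • A) (q.2 • D)) = fun q : ℝ × ℝ =>
      ((((q.1 • A + q.2 • D) ^ k).trace).re + (((q.1 • A - q.2 • D) ^ k).trace).re) / 2 -
        (((q.1 • A) ^ k).trace).re := by
    funext q
    exact T_eq (smulH hA _) (smulH hD _) k
  rw [e]
  have h1 : Continuous fun q : ℝ × ℝ => (((q.1 • A + q.2 • D) ^ k).trace).re :=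
    Complex.continuous_re.comp (Continuous.matrix_trace (by fun_prop))
  have h2 : Continuous fun q : ℝ × ℝ => (((q.1 • A - q.2 • D) ^ k).trace).re :=
    Complex.continuous_re.comp (Continuous.matrix_trace (by fun_prop))
  have h3 : Continuous fun q : ℝ × ℝ => (((q.1 • A) ^ k).trace).re :=
    Complex.continuous_re.comp (Continuous.matrix_trace (by fun_prop))
  exact (((h1.add h2).div_const 2).sub h3).measurable

theorem measurable_en {A D : Matrix n n ℂ} (hA : A.IsHermitian) (hD : D.IsHermitian) :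
    Measurable fun q : ℝ × ℝ => sd en (q.1 • A) (q.2 • D) := by
  have hE := continuous_E hA hD
  have e : (fun q : ℝ × ℝ => sd en (q.1 • A) (q.2 • D)) = fun q : ℝ × ℝ =>
      (E A D (q.1, q.2) + E A D (q.1, -q.2)) / 2 - E A D (q.1, 0) := by
    funext q
    unfold sd E
    rw [trF_exp_neg ((smulH hA q.1).add (smulH hD q.2)),
      trF_exp_neg ((smulH hA q.1).sub (smulH hD q.2)), trF_exp_neg (smulH hA q.1)]
    simp only [zero_smul, add_zero, neg_smul, sub_eq_add_neg]
  rw [e]
  have h1 : Continuous fun q : ℝ × ℝ => E A D (q.1, q.2) := hE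
  have h2 : Continuous fun q : ℝ × ℝ => E A D (q.1, -q.2) := hE.comp (by fun_prop)
  have h3 : Continuous fun q : ℝ × ℝ => E A D (q.1, 0) := hE.comp (by fun_prop)
  exact (((h1.add h2).div_const 2).sub h3).measurable

theorem measurable_ladE {A D : Matrix n n ℂ} (hA : A.IsHermitian) (hD : D.IsHermitian) (m : ℕ) :
    Measurable fun q : ℝ × ℝ => sd (lad fE cE m) (q.1 • A) (q.2 • D) := by
  induction m with
  | zero =>
    have e : (fun q : ℝ × ℝ => sd (lad fE cE 0) (q.1 • A) (q.2 • D)) = fun q : ℝ × ℝ =>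
        - sd en (q.1 • A) (q.2 • D) := by
      funext q
      exact sd_ladE_zero (smulH hA _) (smulH hD _)
    rw [e]
    exact (measurable_en hA hD).neg
  | succ m ih =>
    have e : (fun q : ℝ × ℝ => sd (lad fE cE (m + 1)) (q.1 • A) (q.2 • D)) = fun q : ℝ × ℝ =>
        cE (m + 1) * T (m + 1) (q.1 • A) (q.2 • D) - sd (lad fE cE m) (q.1 • A) (q.2 • D) := by
      funext q
      exact sd_lad_succ _ _ _ (smulH hA _) (smulH hD _)
    rw [e]
    exact ((measurable_T hA hD (m + 1)).const_mul _).sub ih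

end ladder

end Pool.Agent.LDK.Mix
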