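import Pool.Agent.Lib_helper66.LDK.MixB
import Pool.Agent.Lib_helper18.LDK.Abs

/-!
# LDK, block MIX, part C: moments of a dominating measure, and the ladder of dominations
-/

set_option autoImplicit false
set_option linter.unusedSectionVars false

open scoped BigOperators Topology ENNReal ComplexOrder Kronecker
open MeasureTheory Set Filter Matrix

namespace Pool.Agent.LDK.Mix

open Pool.Agent.Lib_helper59.RCT Pool.Agent.Lib_helper59.Lieb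

/-! ### the abstract moment lemma -/

theorem tendsto_uinv (τ σ : ℝ) :
    Tendsto (fun n : ℕ => τ - 1 / ((n : ℝ) + 1) * σ) atTop (𝓝 τ) := by
  have h := (tendsto_one_div_add_atTop_nhds_zero_nat (𝕜 := ℝ)).mul_const σ
  have h2 := h.const_sub τ
  simpa using h2

theorem mom_abs {Ω : Type*} [MeasurableSpace Ω] (μ : Measure Ω) (k : ℕ) (e : ℝ → Ω → ℝ)
    (t s : Ω → ℝ) (X : ℝ → ℝ) (τ σ : ℝ)
    (hm : ∀ u, 0 < u → AEMeasurable (e u) μ)
    (h1 : ∀ᵐ ω ∂μ, ∀ u : ℝ, 0 < u → e u ω ≤ u ^ k * t ω)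
    (h2 : ∀ᵐ ω ∂μ, ∀ u : ℝ, 0 < u → u ^ k * t ω - u ^ (k + 1) * s ω ≤ e u ω)
    (X1 : ∀ u : ℝ, 0 < u → X u ≤ u ^ k * τ)
    (X2 : ∀ u : ℝ, 0 < u → u ^ k * τ - u ^ (k + 1) * σ ≤ X u)
    (heq : ∀ u : ℝ, 0 < u → ∫⁻ ω, ENNReal.ofReal (e u ω) ∂μ = ENNReal.ofReal (X u)) :
    ∫⁻ ω, ENNReal.ofReal (t ω) ∂μ = ENNReal.ofReal τ := by
  have hu : ∀ n : ℕ, (0 : ℝ) < 1 / ((n : ℝ) + 1) := fun n => by positivity
  set v : ℕ → ℝ := fun n => 1 / ((n : ℝ) + 1) with hv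
  have hsc : ∀ n, ∫⁻ ω, ENNReal.ofReal (((v n) ^ k)⁻¹ * e (v n) ω) ∂μ =
      ENNReal.ofReal (((v n) ^ k)⁻¹ * X (v n)) := by
    intro n
    have hp : 0 ≤ ((v n) ^ k)⁻¹ := inv_nonneg.2 (pow_nonneg (hu n).le k)
    rw [ENNReal.ofReal_mul hp, ← heq _ (hu n), ← lintegral_const_mul' _ _ ENNReal.ofReal_ne_top]
    refine lintegral_congr fun ω => ?_
    rw [ENNReal.ofReal_mul hp]
  have inv1 : ∀ n : ℕ, ∀ a b c : ℝ, a ≤ (v n) ^ k * b → ((v n) ^ k)⁻¹ * a ≤ b := by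
    intro n a b _ h
    have hp : 0 < (v n) ^ k := pow_pos (hu n) k
    rw [inv_mul_le_iff₀ hp]
    exact h
  have inv2 : ∀ n : ℕ, ∀ a b c : ℝ, (v n) ^ k * b - (v n) ^ (k + 1) * c ≤ a →
      b - v n * c ≤ ((v n) ^ k)⁻¹ * a := by
    intro n a b c h
    have hp : 0 < (v n) ^ k := pow_pos (hu n) k
    rw [le_inv_mul_iff₀ hp]
    calc (v n) ^ k * (b - v n * c) = (v n) ^ k * b - (v n) ^ (k + 1) * c := by ring
      _ ≤ a := h
  apply le_antisymm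
  · have hlim : ∀ᵐ ω ∂μ, liminf (fun n => ENNReal.ofReal (((v n) ^ k)⁻¹ * e (v n) ω)) atTop =
        ENNReal.ofReal (t ω) := by
      filter_upwards [h1, h2] with ω g1 g2
      apply Tendsto.liminf_eq
      apply ENNReal.tendsto_ofReal
      exact tendsto_of_tendsto_of_tendsto_of_le_of_le (tendsto_uinv (t ω) (s ω))
        tendsto_const_nhds (fun n => inv2 n _ _ _ (g2 _ (hu n)))
        (fun n => inv1 n _ _ 0 (g1 _ (hu n)))
    rw [← lintegral_congr_ae hlim]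
    refine (lintegral_liminf_le' fun n => ?_).trans ?_
    · exact ((hm _ (hu n)).const_mul _).ennreal_ofReal
    · refine (liminf_le_liminf (v := fun _ : ℕ => ENNReal.ofReal τ)
        (Eventually.of_forall fun n => ?_)).trans (liminf_const _).le
      rw [hsc n]
      exact ENNReal.ofReal_le_ofReal (inv1 n _ _ 0 (X1 _ (hu n)))
  · refine le_of_tendsto' (ENNReal.tendsto_ofReal (tendsto_uinv τ σ)) fun n => ?_
    refine (ENNReal.ofReal_le_ofReal (inv2 n _ _ _ (X2 _ (hu n)))).trans ?_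
    rw [← hsc n]
    apply lintegral_mono_ae
    filter_upwards [h1] with ω g1
    exact ENNReal.ofReal_le_ofReal (inv1 n _ _ 0 (g1 _ (hu n)))

/-! ### the ladder on the scalar side -/

section

variable {m : Type} [Fintype m] [DecidableEq m]

abbrev o1 : Matrix (Fin 1) (Fin 1) ℂ := 1

theorem o1H : (o1).IsHermitian := isHermitian_one

theorem scal_dir {x y : ℝ} (h : |y| ≤ x) : PP (x • o1) (y • o1) := PP.dir PP.one h

theorem lad_pair_E {ι : Type*} [Fintype ι] [DecidableEq ι] {A D : Matrix ι ι ℂ} (h : PP A D)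
    (k : ℕ) {u : ℝ} (_hu : 0 < u) :
    sd (lad fE cE (k + 2)) (u • A) (u • D) + sd (lad fE cE (k + 1)) (u • A) (u • D) =
      u ^ (k + 2) * (cE (k + 2) * T (k + 2) A D) := by
  rw [sd_lad_succ fE cE (k + 1) (smulH h.psd.1 u) (smulH h.herm u), T_smul h.psd.1 h.herm]
  ring

theorem lad_pair_L {ι : Type*} [Fintype ι] [DecidableEq ι] {A D : Matrix ι ι ℂ} (h : PP A D)
    (k : ℕ) {u : ℝ} (_hu : 0 < u) :
    sd (lad fL cL (k + 2)) (u • A) (u • D) + sd (lad fL cL (k + 1)) (u • A) (u • D) =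
      u ^ (k + 2) * (cL (k + 2) * T (k + 2) A D) := by
  rw [sd_lad_succ fL cL (k + 1) (smulH h.psd.1 u) (smulH h.herm u), T_smul h.psd.1 h.herm]
  ring

theorem PP_smul {ι : Type*} [Fintype ι] [DecidableEq ι] {A D : Matrix ι ι ℂ} (h : PP A D)
    {u : ℝ} (hu : 0 ≤ u) : PP (u • A) (u • D) := PP.dir h (by rw [abs_of_nonneg hu])

theorem dir_dir {ι : Type*} [Fintype ι] [DecidableEq ι] (A D : Matrix ι ι ℂ) (u x y : ℝ) :
    ((u * x) • A = u • (x • A)) ∧ ((u * y) • D = u • (y • D)) :=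
  ⟨(smul_smul u x A).symm, (smul_smul u y D).symm⟩

/-- the scalar equality at level `k` -/
def SEq (A2 D2 : Matrix m m ℂ) (μ : Measure (ℝ × ℝ)) (k : ℕ) : Prop :=
  ∀ u : ℝ, 0 < u → ∫⁻ p, ENNReal.ofReal (sd (lad fE cE k) ((u * p.1) • o1) ((u * p.2) • o1)) ∂μ =
    ENNReal.ofReal (sd (lad fL cL k) (u • A2) (u • D2))

theorem measE {ι : Type*} [Fintype ι] [DecidableEq ι] {A D : Matrix ι ι ℂ} (hA : A.IsHermitian)
    (hD : D.IsHermitian) (k : ℕ) (u : ℝ) :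
    Measurable fun p : ℝ × ℝ => sd (lad fE cE k) ((u * p.1) • A) ((u * p.2) • D) := by
  have h : Measurable fun p : ℝ × ℝ => (u * p.1, u * p.2) :=
    (measurable_fst.const_mul u).prodMk (measurable_snd.const_mul u)
  have h2 := (measurable_ladE hA hD k).comp h
  have e : (fun p : ℝ × ℝ => sd (lad fE cE k) ((u * p.1) • A) ((u * p.2) • D)) =
      (fun q : ℝ × ℝ => sd (lad fE cE k) (q.1 • A) (q.2 • D)) ∘
        (fun p => (u * p.1, u * p.2)) := by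
    funext p
    rfl
  rw [e]
  exact h2

theorem moment {A2 D2 : Matrix m m ℂ} (h2 : PP A2 D2) {μ : Measure (ℝ × ℝ)}
    (hadm : ∀ᵐ p ∂μ, |p.2| ≤ p.1) (k : ℕ) (hs : SEq A2 D2 μ (k + 1)) :
    ∫⁻ p, ENNReal.ofReal (cE (k + 2) * T (k + 2) (p.1 • o1) (p.2 • o1)) ∂μ =
      ENNReal.ofReal (cL (k + 2) * T (k + 2) A2 D2) := by
  refine mom_abs μ (k + 2) (fun u p => sd (lad fE cE (k + 1)) ((u * p.1) • o1) ((u * p.2) • o1))
    _ (fun p => cE (k + 3) * T (k + 3) (p.1 • o1) (p.2 • o1))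
    (fun u => sd (lad fL cL (k + 1)) (u • A2) (u • D2)) _ (cL (k + 3) * T (k + 3) A2 D2)
    (fun u _ => (measE o1H o1H (k + 1) u).aemeasurable) ?_ ?_ ?_ ?_ hs
  · filter_upwards [hadm] with p hp u hu
    obtain ⟨e1, e2⟩ := dir_dir o1 o1 u p.1 p.2
    rw [e1, e2]
    have h := scal_dir hp
    have g1 := lad_pair_E h k hu
    have g2 := sdE_nonneg (PP_smul h hu.le) (k + 1)
    have g3 : k + 1 + 1 = k + 2 := rfl
    rw [g3] at g2
    linarith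
  · filter_upwards [hadm] with p hp u hu
    obtain ⟨e1, e2⟩ := dir_dir o1 o1 u p.1 p.2
    rw [e1, e2]
    have h := scal_dir hp
    have g1 := lad_pair_E h k hu
    have g4 := lad_pair_E h (k + 1) hu
    have g2 := sdE_nonneg (PP_smul h hu.le) (k + 2)
    have g3 : k + 2 + 1 = k + 1 + 2 := by ring
    rw [g3] at g2
    have g5 : k + 1 + 1 = k + 2 := rfl
    have g6 : k + 1 + 2 = k + 3 := by ring
    rw [g6] at g2 g4
    rw [g5] at g4
    rw [show k + 2 + 1 = k + 3 by ring]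
    linarith
  · intro u hu
    have g1 := lad_pair_L h2 k hu
    have g2 := sdL_nonneg (PP_smul h2 hu.le) (k + 1)
    have g3 : k + 1 + 1 = k + 2 := rfl
    rw [g3] at g2
    linarith
  · intro u hu
    have g1 := lad_pair_L h2 k hu
    have g4 := lad_pair_L h2 (k + 1) hu
    have g2 := sdL_nonneg (PP_smul h2 hu.le) (k + 2)
    have g3 : k + 2 + 1 = k + 1 + 2 := by ring
    rw [g3] at g2
    have g5 : k + 1 + 1 = k + 2 := rfl
    have g6 : k + 1 + 2 = k + 3 := by ring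
    rw [g6] at g2 g4
    rw [g5] at g4
    rw [show k + 2 + 1 = k + 3 by ring]
    linarith

/-- sum of two consecutive levels, integrated; `w` is the factor of the other side -/
theorem sum_level {ι : Type*} [Fintype ι] [DecidableEq ι] {A D : Matrix ι ι ℂ} (h : PP A D)
    {A2 D2 : Matrix m m ℂ} {μ : Measure (ℝ × ℝ)}
    (hadm : ∀ᵐ p ∂μ, |p.2| ≤ p.1) (k : ℕ)
    (hmom : ∫⁻ p, ENNReal.ofReal (cE (k + 2) * T (k + 2) (p.1 • o1) (p.2 • o1)) ∂μ =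
      ENNReal.ofReal (cL (k + 2) * T (k + 2) A2 D2))
    {w : ℝ} (hw : 0 ≤ w)
    (hwe : ∀ x y : ℝ, T (k + 2) (x • A) (y • D) = T (k + 2) (x • o1) (y • o1) * w)
    {u : ℝ} (hu : 0 < u) :
    ∫⁻ p, ENNReal.ofReal (sd (lad fE cE (k + 2)) ((u * p.1) • A) ((u * p.2) • D)) ∂μ +
      ∫⁻ p, ENNReal.ofReal (sd (lad fE cE (k + 1)) ((u * p.1) • A) ((u * p.2) • D)) ∂μ =
      ENNReal.ofReal (u ^ (k + 2) * (cL (k + 2) * (w * T (k + 2) A2 D2))) := by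
  have hp0 : 0 ≤ u ^ (k + 2) * w := by positivity
  have e : u ^ (k + 2) * (cL (k + 2) * (w * T (k + 2) A2 D2)) =
      (u ^ (k + 2) * w) * (cL (k + 2) * T (k + 2) A2 D2) := by ring
  rw [e, ENNReal.ofReal_mul hp0, ← hmom, ← lintegral_const_mul' _ _ ENNReal.ofReal_ne_top,
    ← lintegral_add_left (measE h.psd.1 h.herm (k + 2) u).ennreal_ofReal]
  apply lintegral_congr_ae
  filter_upwards [hadm] with p hp
  obtain ⟨e1, e2⟩ := dir_dir A D u p.1 p.2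
  have hd := PP.dir h hp
  rw [e1, e2, ← ENNReal.ofReal_add (sdE_nonneg (PP_smul hd hu.le) (k + 1))
    (sdE_nonneg (PP_smul hd hu.le) k), lad_pair_E hd k hu, hwe, ← ENNReal.ofReal_mul hp0]
  congr 1
  ring

theorem seq_succ {A2 D2 : Matrix m m ℂ} (h2 : PP A2 D2) {μ : Measure (ℝ × ℝ)}
    (hadm : ∀ᵐ p ∂μ, |p.2| ≤ p.1) (k : ℕ) (hs : SEq A2 D2 μ (k + 1)) :
    SEq A2 D2 μ (k + 2) := by
  intro u hu
  have h := sum_level (PP.one (n := Fin 1)) hadm k (moment h2 hadm k hs) (w := 1) zero_le_one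
    (fun x y => (mul_one _).symm) hu
  rw [hs u hu, one_mul, ← lad_pair_L h2 k hu, ENNReal.ofReal_add
    (sdL_nonneg (PP_smul h2 hu.le) (k + 1)) (sdL_nonneg (PP_smul h2 hu.le) k)] at h
  exact (ENNReal.add_left_inj ENNReal.ofReal_ne_top).1 h

theorem seq_all {A2 D2 : Matrix m m ℂ} (h2 : PP A2 D2) {μ : Measure (ℝ × ℝ)}
    (hμ : ExpMeas A2 D2 μ) (k : ℕ) : SEq A2 D2 μ (k + 1) := by
  induction k with
  | zero =>
    intro u hu
    have h := hμ.eq u hu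
    rw [zero_add, sd_ladL_one (smulH h2.psd.1 u) (smulH h2.herm u), ← h]
    refine lintegral_congr fun p => ?_
    rw [sd_ladE_one (smulH o1H _) (smulH o1H _)]
  | succ k ih => exact seq_succ h2 hμ.adm k ih

/-! ### the ladder for a general pair -/

theorem PP_kron {ι : Type} [Fintype ι] [DecidableEq ι] {A D : Matrix ι ι ℂ} {A2 D2 : Matrix m m ℂ}
    (h : PP A D) (h2 : PP A2 D2) : PP (A ⊗ₖ A2) (D ⊗ₖ D2) :=
  ⟨RC.kron_add_psd _ _ _ _ h.sub h.add h2.sub h2.add,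
    RC.kron_sub_psd _ _ _ _ h.sub h.add h2.sub h2.add⟩

/-- level 1 -/
theorem level1 {ι : Type} [Fintype ι] [DecidableEq ι] {A D : Matrix ι ι ℂ} (h : PP A D)
    {A2 D2 : Matrix m m ℂ} (h2 : PP A2 D2) {μ : Measure (ℝ × ℝ)} (hμ : ExpMeas A2 D2 μ)
    {u : ℝ} (hu : 0 < u) :
    ∫⁻ p, ENNReal.ofReal (sd (lad fE cE 1) ((u * p.1) • A) ((u * p.2) • D)) ∂μ ≤
      ENNReal.ofReal (sd (lad fL cL 1) (u • (A ⊗ₖ A2)) (u • (D ⊗ₖ D2))) := by
  have hk := PP_kron h h2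
  rw [sd_ladL_one (smulH hk.psd.1 u) (smulH hk.herm u)]
  refine le_trans (le_of_eq ?_) (hμ.le ι A D h u hu)
  refine lintegral_congr fun p => ?_
  rw [sd_ladE_one (smulH h.psd.1 _) (smulH h.herm _)]

theorem T2_w {ι : Type*} [Fintype ι] [DecidableEq ι] {A D : Matrix ι ι ℂ} (h : PP A D) (x y : ℝ) :
    T 2 (x • A) (y • D) = T 2 (x • o1) (y • o1) * T 2 A D := by
  rw [T_two_smul h.psd.1 h.herm, T_two_smul o1H o1H, T_two (A := o1) (D := o1) o1H o1H]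
  simp

theorem T3_w {ι : Type*} [Fintype ι] [DecidableEq ι] {A D : Matrix ι ι ℂ} (h : PP A D) (x y : ℝ) :
    T 3 (x • A) (y • D) = T 3 (x • o1) (y • o1) * (T 3 A D / 3) := by
  rw [T_three_smul h.psd.1 h.herm, T_three_smul o1H o1H, T_three (A := o1) (D := o1) o1H o1H]
  simp
  ring

/-- level 2 -/
theorem level2 {ι : Type} [Fintype ι] [DecidableEq ι] {A D : Matrix ι ι ℂ} (h : PP A D)
    {A2 D2 : Matrix m m ℂ} (h2 : PP A2 D2) {μ : Measure (ℝ × ℝ)} (hμ : ExpMeas A2 D2 μ)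
    {u : ℝ} (hu : 0 < u) :
    ENNReal.ofReal (sd (lad fL cL 2) (u • (A ⊗ₖ A2)) (u • (D ⊗ₖ D2))) ≤
      ∫⁻ p, ENNReal.ofReal (sd (lad fE cE 2) ((u * p.1) • A) ((u * p.2) • D)) ∂μ := by
  have hk := PP_kron h h2
  have hsum := sum_level h hμ.adm 0 (moment h2 hμ.adm 0 (seq_all h2 hμ 0))
    (T_nonneg h 2) (T2_w h) hu
  simp only [zero_add] at hsum
  rw [← T_two_kron h.psd.1 h.herm h2.psd.1 h2.herm, ← lad_pair_L hk 0 hu, ENNReal.ofReal_add
    (sdL_nonneg (PP_smul hk hu.le) 1) (sdL_nonneg (PP_smul hk hu.le) 0)] at hsum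
  simp only [zero_add] at hsum
  have h1 := level1 h h2 hμ hu
  have h3 : ENNReal.ofReal (sd (lad fL cL 2) (u • (A ⊗ₖ A2)) (u • (D ⊗ₖ D2))) +
      ENNReal.ofReal (sd (lad fL cL 1) (u • (A ⊗ₖ A2)) (u • (D ⊗ₖ D2))) ≤
      ∫⁻ p, ENNReal.ofReal (sd (lad fE cE 2) ((u * p.1) • A) ((u * p.2) • D)) ∂μ +
      ENNReal.ofReal (sd (lad fL cL 1) (u • (A ⊗ₖ A2)) (u • (D ⊗ₖ D2))) := by
    rw [← hsum]
    gcongr
  exact (ENNReal.add_le_add_iff_right ENNReal.ofReal_ne_top).1 h3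

/-- level 3 -/
theorem level3 {ι : Type} [Fintype ι] [DecidableEq ι] {A D : Matrix ι ι ℂ} (h : PP A D)
    {A2 D2 : Matrix m m ℂ} (h2 : PP A2 D2) {μ : Measure (ℝ × ℝ)} (hμ : ExpMeas A2 D2 μ)
    {u : ℝ} (hu : 0 < u) :
    ∫⁻ p, ENNReal.ofReal (sd (lad fE cE 3) ((u * p.1) • A) ((u * p.2) • D)) ∂μ ≤
      ENNReal.ofReal (sd (lad fL cL 3) (u • (A ⊗ₖ A2)) (u • (D ⊗ₖ D2))) := by
  have hk := PP_kron h h2
  have hsum := sum_level h hμ.adm 1 (moment h2 hμ.adm 1 (seq_all h2 hμ 1))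
    (w := T 3 A D / 3) (div_nonneg (T_nonneg h 3) (by norm_num)) (T3_w h) hu
  simp only [Nat.reduceAdd] at hsum
  have e : T 3 A D / 3 * T 3 A2 D2 = T 3 (A ⊗ₖ A2) (D ⊗ₖ D2) := by
    rw [T_three_kron h.psd.1 h.herm h2.psd.1 h2.herm]
    ring
  have e2 := lad_pair_L hk 1 hu
  simp only [Nat.reduceAdd] at e2
  have n2 := sdL_nonneg (PP_smul hk hu.le) 2
  have n1 := sdL_nonneg (PP_smul hk hu.le) 1
  simp only [Nat.reduceAdd] at n1 n2
  rw [e, ← e2, ENNReal.ofReal_add n2 n1] at hsum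
  have h1 := level2 h h2 hμ hu
  have h3 : ∫⁻ p, ENNReal.ofReal (sd (lad fE cE 3) ((u * p.1) • A) ((u * p.2) • D)) ∂μ +
      ENNReal.ofReal (sd (lad fL cL 2) (u • (A ⊗ₖ A2)) (u • (D ⊗ₖ D2))) ≤
      ENNReal.ofReal (sd (lad fL cL 3) (u • (A ⊗ₖ A2)) (u • (D ⊗ₖ D2))) +
      ENNReal.ofReal (sd (lad fL cL 2) (u • (A ⊗ₖ A2)) (u • (D ⊗ₖ D2))) := by
    rw [← hsum]
    gcongr
  exact (ENNReal.add_le_add_iff_right ENNReal.ofReal_ne_top).1 h3

end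

end Pool.Agent.LDK.Mix
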