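import Pool.Agent.Lib_helper66.LDK.MixC

/-!
# LDK, block MIX, part D: Mellin transforms of the ladders, Tonelli, the open ranges
-/

set_option autoImplicit false
set_option linter.unusedSectionVars false

open scoped BigOperators Topology ENNReal ComplexOrder Kronecker
open MeasureTheory Set Filter Matrix

namespace Pool.Agent.LDK.Mix

open Pool.Agent.Lib_helper59.RCT
open Pool.Agent.RC (IsPsdPair G)

/-! ### Mellin classes -/

theorem mf_scal {f : ℝ → ℝ} (hf0 : f 0 = 0) {α : ℝ} (h0 : 0 < α)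
    (hint : IntegrableOn (fun r : ℝ => r ^ (α - 1) * f (1 / r)) (Ioi 0)) :
    MF f α (∫ r in Ioi (0 : ℝ), r ^ (α - 1) * f (1 / r)) := by
  constructor
  · intro x hx
    exact (RC.SER.scal f hf0 h0 hint hx).1
  · intro x hx
    rw [(RC.SER.scal f hf0 h0 hint hx).2]
    ring

theorem mf_ladE (m : ℕ) {α : ℝ} (h0 : 0 < α) (h1 : (m : ℝ) < α) (h2 : α < m + 1) :
    MF (lad fE cE m) α (KE m α) := mf_scal (ladE_zero m) h0 (ladE_int m h1 h2)

theorem mf_ladL (m : ℕ) {α : ℝ} (h0 : 0 < α) (h1 : (m : ℝ) < α) (h2 : α < m + 1) :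
    MF (lad fL cL m) α (KL m α) := mf_scal (ladL_zero m) h0 (ladL_int m h1 h2)

theorem MF.neg {f : ℝ → ℝ} {α c : ℝ} (h : MF f α c) : MF (fun x => - f x) α (-c) := by
  constructor
  · intro x hx
    have := (h.int x hx).neg
    refine this.congr_fun ?_ measurableSet_Ioi
    intro r _
    simp
  · intro x hx
    have e : (fun r : ℝ => r ^ (α - 1) * - f (x / r)) = fun r : ℝ => -(r ^ (α - 1) * f (x / r)) := by
      funext r; ring
    simp only [e]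
    rw [integral_neg, h.eq x hx]
    ring

theorem MF.nonneg {n : Type*} [Fintype n] [DecidableEq n] {f : ℝ → ℝ} {α c : ℝ} (h : MF f α c)
    (hf : ConvexOn ℝ (Set.Ici 0) f) {A D : Matrix n n ℂ} (hAD : PP A D) :
    0 ≤ c * sd (fun x => x ^ α) A D := by
  rw [← (h.sd_int hAD).2]
  apply setIntegral_nonneg measurableSet_Ioi
  intro r hr
  have hr0 : (0 : ℝ) < r := hr
  exact mul_nonneg (by positivity) (sd_nonneg hf (PP_smul hAD (inv_nonneg.2 hr0.le)))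

/-! ### Tonelli -/

theorem ton_eq {n : Type*} [Fintype n] [DecidableEq n] {f : ℝ → ℝ} {α c : ℝ} (h : MF f α c)
    (hf : ConvexOn ℝ (Set.Ici 0) f) {A D : Matrix n n ℂ} (hAD : PP A D)
    (hm : Measurable fun q : ℝ × ℝ => sd f (q.1 • A) (q.2 • D))
    {μ : Measure (ℝ × ℝ)} [SFinite μ] (hadm : ∀ᵐ p ∂μ, |p.2| ≤ p.1) :
    ∫⁻ p, ENNReal.ofReal (c * sd (fun x => x ^ α) (p.1 • A) (p.2 • D)) ∂μ =
      ∫⁻ r in Ioi (0 : ℝ), ENNReal.ofReal (r ^ (α - 1)) *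
        ∫⁻ p, ENNReal.ofReal (sd f ((r⁻¹ * p.1) • A) ((r⁻¹ * p.2) • D)) ∂μ := by
  have hmr : Measurable fun r : ℝ => ENNReal.ofReal (r ^ (α - 1)) := by
    have : Measurable fun r : ℝ => r ^ (α - 1) := by fun_prop
    exact this.ennreal_ofReal
  have hmap : Measurable fun z : (ℝ × ℝ) × ℝ => (z.2⁻¹ * z.1.1, z.2⁻¹ * z.1.2) := by
    have m2 : Measurable fun z : (ℝ × ℝ) × ℝ => z.2⁻¹ := measurable_snd.inv
    exact (m2.mul (measurable_fst.comp measurable_fst)).prodMk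
      (m2.mul (measurable_snd.comp measurable_fst))
  have hF : Measurable fun z : (ℝ × ℝ) × ℝ =>
      sd f ((z.2⁻¹ * z.1.1) • A) ((z.2⁻¹ * z.1.2) • D) := by
    have h2 := hm.comp hmap
    have e : (fun z : (ℝ × ℝ) × ℝ => sd f ((z.2⁻¹ * z.1.1) • A) ((z.2⁻¹ * z.1.2) • D)) =
        (fun q : ℝ × ℝ => sd f (q.1 • A) (q.2 • D)) ∘
          (fun z : (ℝ × ℝ) × ℝ => (z.2⁻¹ * z.1.1, z.2⁻¹ * z.1.2)) := by
      funext z
      rfl
    rw [e]
    exact h2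
  have hFr : ∀ r : ℝ, Measurable fun p : ℝ × ℝ =>
      sd f ((r⁻¹ * p.1) • A) ((r⁻¹ * p.2) • D) := by
    intro r
    have h2 := hF.comp (measurable_id.prodMk (measurable_const (a := r)))
    exact h2
  have e1 : ∫⁻ p, ENNReal.ofReal (c * sd (fun x => x ^ α) (p.1 • A) (p.2 • D)) ∂μ =
      ∫⁻ p, (∫⁻ r in Ioi (0 : ℝ), ENNReal.ofReal (r ^ (α - 1)) *
        ENNReal.ofReal (sd f ((r⁻¹ * p.1) • A) ((r⁻¹ * p.2) • D))) ∂μ := by
    apply lintegral_congr_ae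
    filter_upwards [hadm] with p hp
    rw [← h.sd_lint hf (PP.dir hAD hp)]
    refine lintegral_congr fun r => ?_
    obtain ⟨e1, e2⟩ := dir_dir A D r⁻¹ p.1 p.2
    rw [e1, e2]
  rw [e1, lintegral_lintegral_swap]
  · refine lintegral_congr fun r => ?_
    rw [lintegral_const_mul _ (hFr r).ennreal_ofReal]
  · apply Measurable.aemeasurable
    have h3 : Measurable fun z : (ℝ × ℝ) × ℝ => ENNReal.ofReal (z.2 ^ (α - 1)) *
        ENNReal.ofReal (sd f ((z.2⁻¹ * z.1.1) • A) ((z.2⁻¹ * z.1.2) • D)) :=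
      (hmr.comp measurable_snd).mul hF.ennreal_ofReal
    exact h3

/-! ### abstract comparison -/

theorem abs_le {Ω : Type*} [MeasurableSpace Ω] {μ : Measure Ω} {I J : Ω → ℝ} {g K a b : ℝ}
    (hg : 0 ≤ g) (hK : 0 ≤ K) (hb : 0 ≤ b) (h : ∀ᵐ ω ∂μ, g * J ω ≤ K * I ω)
    (hJ : ∫⁻ ω, ENNReal.ofReal (J ω) ∂μ = ENNReal.ofReal a)
    (hI : ∫⁻ ω, ENNReal.ofReal (I ω) ∂μ ≤ ENNReal.ofReal b) : g * a ≤ K * b := by
  have h1 : ENNReal.ofReal (g * a) ≤ ENNReal.ofReal (K * b) := by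
    rw [ENNReal.ofReal_mul hg, ENNReal.ofReal_mul hK, ← hJ,
      ← lintegral_const_mul' _ _ ENNReal.ofReal_ne_top]
    refine le_trans ?_ (mul_le_mul_right hI (ENNReal.ofReal K))
    rw [← lintegral_const_mul' _ _ ENNReal.ofReal_ne_top]
    apply lintegral_mono_ae
    filter_upwards [h] with ω hω
    rw [← ENNReal.ofReal_mul hg, ← ENNReal.ofReal_mul hK]
    exact ENNReal.ofReal_le_ofReal hω
  exact (ENNReal.ofReal_le_ofReal_iff (mul_nonneg hK hb)).1 h1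

theorem abs_ge {Ω : Type*} [MeasurableSpace Ω] {μ : Measure Ω} {I J : Ω → ℝ} {g K a b : ℝ}
    (hg : 0 ≤ g) (hK : 0 ≤ K) (ha : 0 ≤ a) (h : ∀ᵐ ω ∂μ, K * I ω ≤ g * J ω)
    (hJ : ∫⁻ ω, ENNReal.ofReal (J ω) ∂μ = ENNReal.ofReal a)
    (hI : ENNReal.ofReal b ≤ ∫⁻ ω, ENNReal.ofReal (I ω) ∂μ) : K * b ≤ g * a := by
  have h1 : ENNReal.ofReal (K * b) ≤ ENNReal.ofReal (g * a) := by
    rw [ENNReal.ofReal_mul hg, ENNReal.ofReal_mul hK, ← hJ,
      ← lintegral_const_mul' _ _ ENNReal.ofReal_ne_top]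
    refine le_trans (mul_le_mul_right hI (ENNReal.ofReal K)) ?_
    rw [← lintegral_const_mul' _ _ ENNReal.ofReal_ne_top]
    apply lintegral_mono_ae
    filter_upwards [h] with ω hω
    rw [← ENNReal.ofReal_mul hg, ← ENNReal.ofReal_mul hK]
    exact ENNReal.ofReal_le_ofReal hω
  exact (ENNReal.ofReal_le_ofReal_iff (mul_nonneg hg ha)).1 h1

/-! ### conversion -/

section

variable {ι κ : Type} [Fintype ι] [DecidableEq ι] [Fintype κ] [DecidableEq κ]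

theorem G_eq_sd (α : ℝ) {A D : Matrix ι ι ℂ} (hA : A.IsHermitian) (hD : D.IsHermitian) :
    G α A D = sd (fun x => x ^ α) A D := by
  unfold G sd
  rw [RC.trF_eq_cfc _ (hA.add hD), RC.trF_eq_cfc _ (hA.sub hD), RC.trF_eq_cfc _ hA]
  rfl

theorem toPP {A D : Matrix ι ι ℂ} (h : IsPsdPair A D) : PP A D := ⟨h.add, h.sub⟩

theorem ofPP {A D : Matrix ι ι ℂ} (h : PP A D) : IsPsdPair A D := ⟨h.psd, h.sub, h.add⟩

theorem cs (x : ℝ) (M : Matrix ι ι ℂ) : (x : ℂ) • M = x • M := Complex.coe_smul x M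

/-- scalar direction, in terms of `sd` -/
theorem dir_le_sd {α : ℝ} (hα : (0 < α ∧ α ≤ 2 ∧ α ≠ 1) ∨ (3 ≤ α ∧ α ≤ 4))
    {A D : Matrix ι ι ℂ} (h : PP A D) {x y : ℝ} (hxy : |y| ≤ x) :
    sd (fun t => t ^ α) A D * sd (fun t => t ^ α) (x • o1) (y • o1) ≤
      (2 ^ (α - 1) - 1) * sd (fun t => t ^ α) (x • A) (y • D) := by
  have h1 := dir_scalar_le hα (ofPP h) hxy
  unfold sc at h1
  rw [cs, cs, cs, cs, G_eq_sd _ (smulH h.psd.1 x) (smulH h.herm y), G_eq_sd _ h.psd.1 h.herm,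
    G_eq_sd _ (smulH o1H x) (smulH o1H y)] at h1
  rw [mul_comm]
  exact h1

theorem dir_ge_sd {α : ℝ} (h2 : 2 ≤ α) (h3 : α ≤ 3)
    {A D : Matrix ι ι ℂ} (h : PP A D) {x y : ℝ} (hxy : |y| ≤ x) :
    (2 ^ (α - 1) - 1) * sd (fun t => t ^ α) (x • A) (y • D) ≤
      sd (fun t => t ^ α) A D * sd (fun t => t ^ α) (x • o1) (y • o1) := by
  have h1 := dir_scalar_ge h2 h3 (ofPP h) hxy
  unfold sc at h1
  rw [cs, cs, cs, cs, G_eq_sd _ (smulH h.psd.1 x) (smulH h.herm y), G_eq_sd _ h.psd.1 h.herm,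
    G_eq_sd _ (smulH o1H x) (smulH o1H y)] at h1
  rw [mul_comm (sd _ A D)]
  exact h1

/-! ### the three open ranges, abstractly -/

theorem range_le {α cf cg : ℝ} {f g : ℝ → ℝ} (hf : MF f α cf) (hfc : ConvexOn ℝ (Ici 0) f)
    (hg : MF g α cg) (hgc : ConvexOn ℝ (Ici 0) g)
    (hα : (0 < α ∧ α ≤ 2 ∧ α ≠ 1) ∨ (3 ≤ α ∧ α ≤ 4))
    (hcf : 0 < cf * (α - 1)) (hcg : 0 < cg * (α - 1))
    {A D : Matrix ι ι ℂ} (h : PP A D) {A2 D2 : Matrix κ κ ℂ} (h2 : PP A2 D2)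
    {μ : Measure (ℝ × ℝ)} [SFinite μ] (hadm : ∀ᵐ p ∂μ, |p.2| ≤ p.1)
    (hm : Measurable fun q : ℝ × ℝ => sd f (q.1 • A) (q.2 • D))
    (hm1 : Measurable fun q : ℝ × ℝ => sd f (q.1 • o1) (q.2 • o1))
    (hle : ∀ u : ℝ, 0 < u → ∫⁻ p, ENNReal.ofReal (sd f ((u * p.1) • A) ((u * p.2) • D)) ∂μ ≤
      ENNReal.ofReal (sd g (u • (A ⊗ₖ A2)) (u • (D ⊗ₖ D2))))
    (heq : ∀ u : ℝ, 0 < u → ∫⁻ p, ENNReal.ofReal (sd f ((u * p.1) • o1) ((u * p.2) • o1)) ∂μ =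
      ENNReal.ofReal (sd g (u • A2) (u • D2))) :
    sd (fun t => t ^ α) A D * sd (fun t => t ^ α) A2 D2 ≤
      (2 ^ (α - 1) - 1) * sd (fun t => t ^ α) (A ⊗ₖ A2) (D ⊗ₖ D2) := by
  have hk := PP_kron h h2
  have hI : ∫⁻ p, ENNReal.ofReal (cf * sd (fun x => x ^ α) (p.1 • A) (p.2 • D)) ∂μ ≤
      ENNReal.ofReal (cg * sd (fun x => x ^ α) (A ⊗ₖ A2) (D ⊗ₖ D2)) := by
    rw [ton_eq hf hfc h hm hadm, ← hg.sd_lint hgc hk]
    apply setLIntegral_mono' measurableSet_Ioi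
    intro r hr
    exact mul_le_mul_right (hle _ (inv_pos.2 hr)) _
  have hJ : ∫⁻ p, ENNReal.ofReal (cf * sd (fun x => x ^ α) (p.1 • o1) (p.2 • o1)) ∂μ =
      ENNReal.ofReal (cg * sd (fun x => x ^ α) A2 D2) := by
    rw [ton_eq hf hfc PP.one hm1 hadm, ← hg.sd_lint hgc h2]
    apply setLIntegral_congr_fun measurableSet_Ioi
    intro r hr
    simp only
    rw [heq _ (inv_pos.2 hr)]
  have n12 := MF.nonneg hg hgc hk
  have n1 := MF.nonneg hf hfc h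
  have hα1 : α ≠ 1 := by
    rcases hα with ⟨_, _, h1⟩ | ⟨h3, _⟩
    · exact h1
    · intro h1; rw [h1] at h3; norm_num at h3
  rcases lt_or_gt_of_ne hα1 with hlt | hgt
  · -- `α < 1`: all constants are negative
    have cfn : cf < 0 := by
      by_contra hc
      push Not at hc
      nlinarith
    have cgn : cg < 0 := by
      by_contra hc
      push Not at hc
      nlinarith
    have G1n : sd (fun x => x ^ α) A D ≤ 0 := by
      by_contra hc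
      push Not at hc
      nlinarith
    have Kn : (2 : ℝ) ^ (α - 1) - 1 ≤ 0 := by
      have : (2 : ℝ) ^ (α - 1) ≤ 1 :=
        Real.rpow_le_one_of_one_le_of_nonpos (by norm_num) (by linarith)
      linarith
    have hfin := abs_le (g := - sd (fun x => x ^ α) A D) (K := -((2 : ℝ) ^ (α - 1) - 1))
      (by linarith) (by linarith) n12 (μ := μ)
      (J := fun p => cf * sd (fun x => x ^ α) (p.1 • o1) (p.2 • o1))
      (I := fun p => cf * sd (fun x => x ^ α) (p.1 • A) (p.2 • D)) ?_ hJ hI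
    · have e1 : -sd (fun x => x ^ α) A D * (cg * sd (fun x => x ^ α) A2 D2) =
          (-cg) * (sd (fun x => x ^ α) A D * sd (fun x => x ^ α) A2 D2) := by ring
      have e2 : -((2 : ℝ) ^ (α - 1) - 1) * (cg * sd (fun x => x ^ α) (A ⊗ₖ A2) (D ⊗ₖ D2)) =
          (-cg) * (((2 : ℝ) ^ (α - 1) - 1) * sd (fun x => x ^ α) (A ⊗ₖ A2) (D ⊗ₖ D2)) := by ring
      rw [e1, e2] at hfin
      exact le_of_mul_le_mul_left hfin (by linarith)
    · filter_upwards [hadm] with p hp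
      have hd := dir_le_sd hα h hp
      have := mul_le_mul_of_nonneg_left hd (by linarith : 0 ≤ -cf)
      linarith
  · have cfp : 0 < cf := (mul_pos_iff_of_pos_right (by linarith)).1 hcf
    have cgp : 0 < cg := (mul_pos_iff_of_pos_right (by linarith)).1 hcg
    have G1p : 0 ≤ sd (fun x => x ^ α) A D := by
      by_contra hc
      push Not at hc
      nlinarith
    have Kp : 0 ≤ (2 : ℝ) ^ (α - 1) - 1 := by
      have : (1 : ℝ) ≤ (2 : ℝ) ^ (α - 1) :=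
        Real.one_le_rpow (by norm_num) (by linarith)
      linarith
    have hfin := abs_le (g := sd (fun x => x ^ α) A D) (K := (2 : ℝ) ^ (α - 1) - 1)
      G1p Kp n12 (μ := μ)
      (J := fun p => cf * sd (fun x => x ^ α) (p.1 • o1) (p.2 • o1))
      (I := fun p => cf * sd (fun x => x ^ α) (p.1 • A) (p.2 • D)) ?_ hJ hI
    · have e1 : sd (fun x => x ^ α) A D * (cg * sd (fun x => x ^ α) A2 D2) =
          cg * (sd (fun x => x ^ α) A D * sd (fun x => x ^ α) A2 D2) := by ring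
      have e2 : ((2 : ℝ) ^ (α - 1) - 1) * (cg * sd (fun x => x ^ α) (A ⊗ₖ A2) (D ⊗ₖ D2)) =
          cg * (((2 : ℝ) ^ (α - 1) - 1) * sd (fun x => x ^ α) (A ⊗ₖ A2) (D ⊗ₖ D2)) := by ring
      rw [e1, e2] at hfin
      exact le_of_mul_le_mul_left hfin cgp
    · filter_upwards [hadm] with p hp
      have hd := dir_le_sd hα h hp
      have := mul_le_mul_of_nonneg_left hd cfp.le
      linarith

theorem range_ge {α cf cg : ℝ} {f g : ℝ → ℝ} (hf : MF f α cf) (hfc : ConvexOn ℝ (Ici 0) f)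
    (hg : MF g α cg) (hgc : ConvexOn ℝ (Ici 0) g)
    (h2α : 2 ≤ α) (h3α : α ≤ 3) (hcf : 0 < cf) (hcg : 0 < cg)
    {A D : Matrix ι ι ℂ} (h : PP A D) {A2 D2 : Matrix κ κ ℂ} (h2 : PP A2 D2)
    {μ : Measure (ℝ × ℝ)} [SFinite μ] (hadm : ∀ᵐ p ∂μ, |p.2| ≤ p.1)
    (hm : Measurable fun q : ℝ × ℝ => sd f (q.1 • A) (q.2 • D))
    (hm1 : Measurable fun q : ℝ × ℝ => sd f (q.1 • o1) (q.2 • o1))
    (hge : ∀ u : ℝ, 0 < u → ENNReal.ofReal (sd g (u • (A ⊗ₖ A2)) (u • (D ⊗ₖ D2))) ≤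
      ∫⁻ p, ENNReal.ofReal (sd f ((u * p.1) • A) ((u * p.2) • D)) ∂μ)
    (heq : ∀ u : ℝ, 0 < u → ∫⁻ p, ENNReal.ofReal (sd f ((u * p.1) • o1) ((u * p.2) • o1)) ∂μ =
      ENNReal.ofReal (sd g (u • A2) (u • D2))) :
    (2 ^ (α - 1) - 1) * sd (fun t => t ^ α) (A ⊗ₖ A2) (D ⊗ₖ D2) ≤
      sd (fun t => t ^ α) A D * sd (fun t => t ^ α) A2 D2 := by
  have hk := PP_kron h h2
  have hI : ENNReal.ofReal (cg * sd (fun x => x ^ α) (A ⊗ₖ A2) (D ⊗ₖ D2)) ≤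
      ∫⁻ p, ENNReal.ofReal (cf * sd (fun x => x ^ α) (p.1 • A) (p.2 • D)) ∂μ := by
    rw [ton_eq hf hfc h hm hadm, ← hg.sd_lint hgc hk]
    apply setLIntegral_mono' measurableSet_Ioi
    intro r hr
    exact mul_le_mul_right (hge _ (inv_pos.2 hr)) _
  have hJ : ∫⁻ p, ENNReal.ofReal (cf * sd (fun x => x ^ α) (p.1 • o1) (p.2 • o1)) ∂μ =
      ENNReal.ofReal (cg * sd (fun x => x ^ α) A2 D2) := by
    rw [ton_eq hf hfc PP.one hm1 hadm, ← hg.sd_lint hgc h2]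
    apply setLIntegral_congr_fun measurableSet_Ioi
    intro r hr
    simp only
    rw [heq _ (inv_pos.2 hr)]
  have n2 := MF.nonneg hg hgc h2
  have n1 := MF.nonneg hf hfc h
  have G1p : 0 ≤ sd (fun x => x ^ α) A D := by
    by_contra hc
    push Not at hc
    nlinarith
  have Kp : 0 ≤ (2 : ℝ) ^ (α - 1) - 1 := by
    have : (1 : ℝ) ≤ (2 : ℝ) ^ (α - 1) :=
      Real.one_le_rpow (by norm_num) (by linarith)
    linarith
  have hfin := abs_ge (g := sd (fun x => x ^ α) A D) (K := (2 : ℝ) ^ (α - 1) - 1)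
    G1p Kp n2 (μ := μ)
    (J := fun p => cf * sd (fun x => x ^ α) (p.1 • o1) (p.2 • o1))
    (I := fun p => cf * sd (fun x => x ^ α) (p.1 • A) (p.2 • D)) ?_ hJ hI
  · have e1 : sd (fun x => x ^ α) A D * (cg * sd (fun x => x ^ α) A2 D2) =
        cg * (sd (fun x => x ^ α) A D * sd (fun x => x ^ α) A2 D2) := by ring
    have e2 : ((2 : ℝ) ^ (α - 1) - 1) * (cg * sd (fun x => x ^ α) (A ⊗ₖ A2) (D ⊗ₖ D2)) =
        cg * (((2 : ℝ) ^ (α - 1) - 1) * sd (fun x => x ^ α) (A ⊗ₖ A2) (D ⊗ₖ D2)) := by ring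
    rw [e1, e2] at hfin
    exact le_of_mul_le_mul_left hfin hcg
  · filter_upwards [hadm] with p hp
    have hd := dir_ge_sd h2α h3α h hp
    have := mul_le_mul_of_nonneg_left hd hcf.le
    linarith

end

end Pool.Agent.LDK.Mix
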